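import Pool.Agent.H459R3.NS.Defs

/-!
Base lemmas for the jobs AXI-15, AXI-17, AXI-18, AXI-20 (project AXI of helper67): rules for the
partial derivatives `pd`, functions which are smooth in space-time on `(a, b) × V`.
-/

set_option autoImplicit false

open MeasureTheory Set Metric Filter Topology
open scoped ContDiff
open H459R3.NS

namespace Pool.Agent.Q153.AXI

/-! ### Rules for `pd` -/

section rules

variable {f g : V → ℝ}

theorem dfa (hf : ContDiff ℝ ∞ f) (x : V) : DifferentiableAt ℝ f x :=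
  (hf.differentiable (by norm_cast)) x

theorem smpd (hf : ContDiff ℝ ∞ f) (j : Fin 3) : ContDiff ℝ ∞ (pd j f) := by
  have h1 : ContDiff ℝ ∞ (fderiv ℝ f) := hf.fderiv_right (m := ∞) (by norm_cast)
  exact h1.clm_apply contDiff_const

theorem pdAdd {x : V} (hf : DifferentiableAt ℝ f x) (hg : DifferentiableAt ℝ g x) (j : Fin 3) :
    pd j (fun y => f y + g y) x = pd j f x + pd j g x := by
  unfold pd
  have : HasFDerivAt (fun y => f y + g y) _ x := hf.hasFDerivAt.add hg.hasFDerivAt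
  rw [this.fderiv]
  rfl

theorem pdSub {x : V} (hf : DifferentiableAt ℝ f x) (hg : DifferentiableAt ℝ g x) (j : Fin 3) :
    pd j (fun y => f y - g y) x = pd j f x - pd j g x := by
  unfold pd
  have : HasFDerivAt (fun y => f y - g y) _ x := hf.hasFDerivAt.sub hg.hasFDerivAt
  rw [this.fderiv]
  rfl

theorem pdNeg (j : Fin 3) (x : V) : pd j (fun y => -f y) x = -pd j f x := by
  unfold pd
  rw [fderiv_fun_neg]
  rfl

theorem pdMul {x : V} (hf : DifferentiableAt ℝ f x) (hg : DifferentiableAt ℝ g x) (j : Fin 3) :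
    pd j (fun y => f y * g y) x = pd j f x * g x + f x * pd j g x := by
  unfold pd
  have : HasFDerivAt (fun y => f y * g y) _ x := hf.hasFDerivAt.mul hg.hasFDerivAt
  rw [this.fderiv]
  simp only [ContinuousLinearMap.add_apply, ContinuousLinearMap.smul_apply, smul_eq_mul]
  ring

theorem pdCrd (i j : Fin 3) (x : V) : pd j (fun y : V => y i) x = if i = j then 1 else 0 := by
  unfold pd
  have h : HasFDerivAt (fun y : V => y i) (ContinuousLinearMap.proj (R := ℝ) i) x :=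
    (ContinuousLinearMap.proj (R := ℝ) (φ := fun _ : Fin 3 => ℝ) i).hasFDerivAt
  rw [h.fderiv]
  simp [Pi.single_apply]

theorem smCrd (i : Fin 3) : ContDiff ℝ ∞ (fun y : V => y i) := by fun_prop

theorem pdConst (c : ℝ) (j : Fin 3) (x : V) : pd j (fun _ : V => c) x = 0 := by
  unfold pd
  simp

theorem pdComp {χ : ℝ → ℝ} {x : V} (hχ : DifferentiableAt ℝ χ (g x))
    (hg : DifferentiableAt ℝ g x) (j : Fin 3) :
    pd j (fun y => χ (g y)) x = deriv χ (g x) * pd j g x := by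
  unfold pd
  have h1 : HasFDerivAt (fun y => χ (g y)) (deriv χ (g x) • fderiv ℝ g x) x :=
    hχ.hasDerivAt.comp_hasFDerivAt x hg.hasFDerivAt
  rw [h1.fderiv]
  rfl

theorem pdCongr {x : V} (h : f =ᶠ[𝓝 x] g) (j : Fin 3) : pd j f x = pd j g x := by
  unfold pd
  rw [h.fderiv_eq]

theorem pdComm (hf : ContDiff ℝ ∞ f) (i j : Fin 3) (x : V) :
    pd i (pd j f) x = pd j (pd i f) x := by
  have h2 : ContDiff ℝ 2 f := hf.of_le (by norm_cast)
  have hs : IsSymmSndFDerivAt ℝ f x := h2.contDiffAt.isSymmSndFDerivAt (by simp)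
  have hd : DifferentiableAt ℝ (fderiv ℝ f) x :=
    ((h2.contDiffAt (x := x)).fderiv_right (m := 1) (by norm_num)).differentiableAt one_ne_zero
  have key : ∀ k l : Fin 3, pd k (pd l f) x =
      fderiv ℝ (fderiv ℝ f) x (Pi.single k 1) (Pi.single l 1) := by
    intro k l
    have a1 : HasFDerivAt (fun z => fderiv ℝ f z (Pi.single l 1))
        ((ContinuousLinearMap.apply ℝ ℝ (Pi.single l (1 : ℝ) : V)).comp
        (fderiv ℝ (fderiv ℝ f) x)) x :=
      (ContinuousLinearMap.apply ℝ ℝ (Pi.single l (1 : ℝ) : V)).hasFDerivAt.comp x hd.hasFDerivAt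
    have e : pd l f = fun z => fderiv ℝ f z (Pi.single l 1) := rfl
    conv_lhs => unfold pd
    rw [← e] at a1
    have e2 : (fun x => (fderiv ℝ f x) (Pi.single l 1)) = pd l f := rfl
    rw [e2, a1.fderiv]
    rfl
  rw [key, key]
  exact hs _ _

end rules

/-! ### Space-time -/

section st

variable {a b : ℝ} {f : ℝ → V → ℝ}

theorem opS (a b : ℝ) : IsOpen (Ioo a b ×ˢ (univ : Set V)) := isOpen_Ioo.prod isOpen_univ

theorem hfdS (hf : ContDiffOn ℝ ∞ (fun z : ℝ × V => f z.1 z.2) (Ioo a b ×ˢ univ)) {t : ℝ}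
    (ht : t ∈ Ioo a b) (x : V) : HasFDerivAt (fun z : ℝ × V => f z.1 z.2)
      (fderiv ℝ (fun z : ℝ × V => f z.1 z.2) (t, x)) (t, x) := by
  have hmem : Ioo a b ×ˢ (univ : Set V) ∈ 𝓝 (t, x) :=
    prod_mem_nhds (Ioo_mem_nhds ht.1 ht.2) Filter.univ_mem
  exact ((hf.contDiffAt hmem).differentiableAt (by norm_cast)).hasFDerivAt

theorem pdS (hf : ContDiffOn ℝ ∞ (fun z : ℝ × V => f z.1 z.2) (Ioo a b ×ˢ univ)) {t : ℝ}
    (ht : t ∈ Ioo a b) (j : Fin 3) (x : V) :
    pd j (f t) x = fderiv ℝ (fun z : ℝ × V => f z.1 z.2) (t, x) (0, Pi.single j 1) := by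
  have h2 : HasFDerivAt (fun y : V => ((t, y) : ℝ × V)) (ContinuousLinearMap.inr ℝ ℝ V) x :=
    hasFDerivAt_prodMk_right t x
  have h3 : HasFDerivAt (fun y : V => f t y)
      ((fderiv ℝ (fun z : ℝ × V => f z.1 z.2) (t, x)).comp
        (ContinuousLinearMap.inr ℝ ℝ V)) x :=
    HasFDerivAt.comp (g := fun z : ℝ × V => f z.1 z.2) x (hfdS hf ht x) h2
  unfold pd
  have h4 : fderiv ℝ (f t) x = _ := h3.fderiv
  rw [h4]
  simp

/-- The spatial derivatives are jointly smooth. -/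
theorem jpd (hf : ContDiffOn ℝ ∞ (fun z : ℝ × V => f z.1 z.2) (Ioo a b ×ˢ univ)) (j : Fin 3) :
    ContDiffOn ℝ ∞ (fun z : ℝ × V => pd j (f z.1) z.2) (Ioo a b ×ˢ univ) := by
  have h1 : ContDiffOn ℝ ∞ (fderiv ℝ (fun z : ℝ × V => f z.1 z.2)) (Ioo a b ×ˢ univ) :=
    hf.fderiv_of_isOpen (opS a b) (by norm_cast)
  have h2 : ContDiffOn ℝ ∞ (fun z : ℝ × V => fderiv ℝ (fun z : ℝ × V => f z.1 z.2) z
      (0, Pi.single j 1)) (Ioo a b ×ˢ univ) := h1.clm_apply contDiffOn_const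
  exact h2.congr fun z hz => pdS hf hz.1 j z.2

theorem slS {E : Type} [NormedAddCommGroup E] [NormedSpace ℝ E] {g : ℝ → V → E}
    (hf : ContDiffOn ℝ ∞ (fun z : ℝ × V => g z.1 z.2) (Ioo a b ×ˢ univ)) {t : ℝ}
    (ht : t ∈ Ioo a b) : ContDiff ℝ ∞ (g t) := by
  rw [← contDiffOn_univ]
  exact hf.comp (contDiff_const.prodMk contDiff_id).contDiffOn (fun x _ => ⟨ht, mem_univ _⟩)

theorem dtS (hf : ContDiffOn ℝ ∞ (fun z : ℝ × V => f z.1 z.2) (Ioo a b ×ˢ univ)) {t : ℝ}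
    (ht : t ∈ Ioo a b) (x : V) :
    HasDerivAt (fun s => f s x) (fderiv ℝ (fun z : ℝ × V => f z.1 z.2) (t, x) (1, 0)) t := by
  have h2 : HasDerivAt (fun s : ℝ => ((s, x) : ℝ × V)) (1, 0) t :=
    (hasDerivAt_id t).prodMk (hasDerivAt_const t x)
  exact (hfdS hf ht x).comp_hasDerivAt t h2

/-- Mixed derivatives. -/
theorem mixS (hf : ContDiffOn ℝ ∞ (fun z : ℝ × V => f z.1 z.2) (Ioo a b ×ˢ univ)) {t : ℝ}
    (ht : t ∈ Ioo a b) (j : Fin 3) (x : V) :
    HasDerivAt (fun s => pd j (f s) x) (pd j (fun y => deriv (fun s => f s y) t) x) t := by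
  set F : ℝ × V → ℝ := fun z => f z.1 z.2 with hF
  have hmem : Ioo a b ×ˢ (univ : Set V) ∈ 𝓝 (t, x) :=
    prod_mem_nhds (Ioo_mem_nhds ht.1 ht.2) Filter.univ_mem
  have h2 : ContDiffAt ℝ 2 F (t, x) := (hf.contDiffAt hmem).of_le (by norm_cast)
  have hs : IsSymmSndFDerivAt ℝ F (t, x) := h2.isSymmSndFDerivAt (by simp)
  have hd : DifferentiableAt ℝ (fderiv ℝ F) (t, x) :=
    (h2.fderiv_right (m := 1) (by norm_num)).differentiableAt one_ne_zero
  have l1 : HasDerivAt (fun s => fderiv ℝ F (s, x) (0, Pi.single j 1))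
      (fderiv ℝ (fderiv ℝ F) (t, x) (1, 0) (0, Pi.single j 1)) t := by
    have a1 : HasFDerivAt (fun z => fderiv ℝ F z (0, Pi.single j 1))
        ((ContinuousLinearMap.apply ℝ ℝ ((0, Pi.single j (1 : ℝ)) : ℝ × V)).comp
        (fderiv ℝ (fderiv ℝ F) (t, x))) (t, x) :=
      (ContinuousLinearMap.apply ℝ ℝ ((0, Pi.single j (1 : ℝ)) : ℝ × V)).hasFDerivAt.comp
        (t, x) hd.hasFDerivAt
    have a2 : HasDerivAt (fun s : ℝ => ((s, x) : ℝ × V)) (1, 0) t :=
      (hasDerivAt_id t).prodMk (hasDerivAt_const t x)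
    exact a1.comp_hasDerivAt t a2
  have l2 : (fun s => pd j (f s) x) =ᶠ[𝓝 t] fun s => fderiv ℝ F (s, x) (0, Pi.single j 1) := by
    filter_upwards [Ioo_mem_nhds ht.1 ht.2] with s hs'
    exact pdS hf hs' j x
  have r1 : HasFDerivAt (fun y => fderiv ℝ F (t, y) (1, 0))
      (((ContinuousLinearMap.apply ℝ ℝ ((1, 0) : ℝ × V)).comp
        (fderiv ℝ (fderiv ℝ F) (t, x))).comp (ContinuousLinearMap.inr ℝ ℝ V)) x := by
    have a1 : HasFDerivAt (fun z => fderiv ℝ F z (1, 0))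
        ((ContinuousLinearMap.apply ℝ ℝ ((1, 0) : ℝ × V)).comp
        (fderiv ℝ (fderiv ℝ F) (t, x))) (t, x) :=
      (ContinuousLinearMap.apply ℝ ℝ ((1, 0) : ℝ × V)).hasFDerivAt.comp (t, x) hd.hasFDerivAt
    have a2 : HasFDerivAt (fun y : V => ((t, y) : ℝ × V)) (ContinuousLinearMap.inr ℝ ℝ V) x :=
      hasFDerivAt_prodMk_right t x
    exact a1.comp x a2
  have r2 : (fun y => deriv (fun s => f s y) t) = fun y => fderiv ℝ F (t, y) (1, 0) :=
    funext fun y => (dtS hf ht y).deriv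
  have r3 : pd j (fun y => deriv (fun s => f s y) t) x =
      fderiv ℝ (fderiv ℝ F) (t, x) (1, 0) (0, Pi.single j 1) := by
    rw [r2]
    unfold pd
    rw [r1.fderiv]
    simp only [ContinuousLinearMap.comp_apply, ContinuousLinearMap.inr_apply,
      ContinuousLinearMap.apply_apply]
    exact hs _ _
  rw [r3]
  exact l1.congr_of_eventuallyEq l2

end st

end Pool.Agent.Q153.AXI
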