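import Pool.Agent.Q153.AXI.EqW

/-!
Job AXI-18: `t_EqJ : StmAAs → StmAxF → StmAlg → StmJnt → StmEqW → StmEqJ`.
-/

set_option autoImplicit false

open MeasureTheory Set Metric Filter Topology
open scoped ContDiff
open H459R3.NS Pool.Agent.W268.NS Pool.Agent.Q67.VD

namespace Pool.Agent.Q153.AXI

open Pool.Agent.Q85.CC Pool.Agent.Q85.CL Pool.Agent.TH305.AX Pool.Agent.Q67.AXI

theorem pdC2 {W : V → ℝ} (hW : ContDiff ℝ ∞ W) (i j : Fin 3) : pd i (pd j W) = pd j (pd i W) :=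
  funext fun x => pdComm hW i j x

theorem pdLap {W : V → ℝ} (hW : ContDiff ℝ ∞ W) (x : V) :
    pd 2 (lap W) x = lap (pd 2 W) x := by
  have e : lap W = fun y => pd 0 (pd 0 W) y + pd 1 (pd 1 W) y + pd 2 (pd 2 W) y := by
    funext y
    unfold lap
    rw [Fin.sum_univ_three]
  have s : ∀ j, ContDiff ℝ ∞ (pd j (pd j W)) := fun j => smpd (smpd hW j) j
  have k : ∀ j, pd 2 (pd j (pd j W)) x = pd j (pd j (pd 2 W)) x := by
    intro j
    rw [pdComm (smpd hW j), pdC2 hW 2 j]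
  rw [e, pdAdd ((dfa (s 0) x).fun_add (dfa (s 1) x)) (dfa (s 2) x),
    pdAdd (dfa (s 0) x) (dfa (s 1) x), k, k, k]
  unfold lap
  rw [Fin.sum_univ_three]

theorem pdRR {W : V → ℝ} (hW : ContDiff ℝ ∞ W) (x : V) :
    pd 2 (RR W) x = RR (pd 2 W) x := by
  have e : RR W = fun y => y 0 * pd 0 W y + y 1 * pd 1 W y := rfl
  have d0 := dfa (smCrd 0) x
  have d1 := dfa (smCrd 1) x
  have s : ∀ j, DifferentiableAt ℝ (pd j W) x := fun j => dfa (smpd hW j) x
  rw [e, pdAdd (d0.fun_mul (s 0)) (d1.fun_mul (s 1)), pdMul d0 (s 0), pdMul d1 (s 1), pdCrd,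
    pdCrd, pdC2 hW 2 0, pdC2 hW 2 1]
  simp only [e02, e12, if_false]
  unfold RR
  ring

theorem smRR {W : V → ℝ} (hW : ContDiff ℝ ∞ W) : ContDiff ℝ ∞ (RR W) :=
  ((smCrd 0).mul (smpd hW 0)).add ((smCrd 1).mul (smpd hW 1))

theorem smLap {W : V → ℝ} (hW : ContDiff ℝ ∞ W) : ContDiff ℝ ∞ (lap W) := by
  have e : lap W = fun y => pd 0 (pd 0 W) y + pd 1 (pd 1 W) y + pd 2 (pd 2 W) y := by
    funext y
    unfold lap
    rw [Fin.sum_univ_three]
  rw [e]
  exact ((smpd (smpd hW 0) 0).add (smpd (smpd hW 1) 1)).add (smpd (smpd hW 2) 2)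

theorem opCo (c R H : ℝ) : IsOpen (Co c R H) := by
  have h1 : IsOpen {x : V | sg x < R ^ 2} := isOpen_lt smSg.continuous continuous_const
  have h2 : IsOpen {x : V | |x 2 - c| < H} :=
    isOpen_lt (((smCrd 2).continuous.sub continuous_const).abs) continuous_const
  exact h1.inter h2

/-- the time derivative of `WW`, differentiated in the vertical direction -/
theorem pdE {v : V → V} {U W : V → ℝ} (hv : ContDiff ℝ ∞ v) (hU : ContDiff ℝ ∞ U)
    (hW : ContDiff ℝ ∞ W) {x : V} (hx : sg x ≠ 0) :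
    pd 2 (fun y => LL W y - W221.NS.adv v W y - 2 * U y * W y) x =
      LL (pd 2 W) x - (∑ j, pd 2 (fun y => v y j) x * pd j W x + W221.NS.adv v (pd 2 W) x)
        - 2 * (pd 2 U x * W x + U x * pd 2 W x) := by
  have vc : ∀ i, ContDiff ℝ ∞ (fun y => v y i) := contDiff_pi.1 hv
  -- the factor `2 / sg`
  have h1 : DifferentiableAt ℝ (fun s : ℝ => 2 / s) (sg x) :=
    (differentiableAt_const (2 : ℝ)).fun_div differentiableAt_id hx
  have dq : DifferentiableAt ℝ (fun y : V => 2 / sg y) x := h1.comp x (dfa smSg x)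
  have pq : pd 2 (fun y : V => 2 / sg y) x = 0 := by
    rw [pdComp (χ := fun s : ℝ => 2 / s) h1 (dfa smSg x), pdSg]
    simp only [e02, e12, if_false]
    ring
  have dl := dfa (smLap hW) x
  have dr := dfa (smRR hW) x
  have eLL : LL W = fun y => lap W y + 2 / sg y * RR W y := rfl
  have dLL : DifferentiableAt ℝ (LL W) x := by
    rw [eLL]
    exact dl.fun_add (dq.fun_mul dr)
  have pLL : pd 2 (LL W) x = LL (pd 2 W) x := by
    rw [eLL, pdAdd dl (dq.fun_mul dr), pdMul dq dr, pq, pdLap hW, pdRR hW]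
    unfold LL
    ring
  have eadv : W221.NS.adv v W = fun y => v y 0 * pd 0 W y + v y 1 * pd 1 W y + v y 2 * pd 2 W y := by
    funext y
    unfold W221.NS.adv
    rw [Fin.sum_univ_three]
  have dv : ∀ i, DifferentiableAt ℝ (fun y => v y i) x := fun i => dfa (vc i) x
  have dw : ∀ i, DifferentiableAt ℝ (pd i W) x := fun i => dfa (smpd hW i) x
  have dadv : DifferentiableAt ℝ (W221.NS.adv v W) x := by
    rw [eadv]
    exact (((dv 0).fun_mul (dw 0)).fun_add ((dv 1).fun_mul (dw 1))).fun_add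
      ((dv 2).fun_mul (dw 2))
  have padv : pd 2 (W221.NS.adv v W) x =
      ∑ j, pd 2 (fun y => v y j) x * pd j W x + W221.NS.adv v (pd 2 W) x := by
    rw [eadv, pdAdd (((dv 0).fun_mul (dw 0)).fun_add ((dv 1).fun_mul (dw 1)))
      ((dv 2).fun_mul (dw 2)), pdAdd ((dv 0).fun_mul (dw 0)) ((dv 1).fun_mul (dw 1)),
      pdMul (dv 0) (dw 0), pdMul (dv 1) (dw 1), pdMul (dv 2) (dw 2), pdC2 hW 2 0, pdC2 hW 2 1]
    unfold W221.NS.adv
    rw [Fin.sum_univ_three, Fin.sum_univ_three]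
    ring
  have dU := dfa hU x
  have dW := dfa hW x
  have d2 : DifferentiableAt ℝ (fun _ : V => (2 : ℝ)) x := differentiableAt_const _
  have e1 : (fun y => LL W y - W221.NS.adv v W y - 2 * U y * W y) =
      fun y => (fun y => (LL W) y - (W221.NS.adv v W) y) y - (fun y => (fun y => 2 * U y) y * W y) y := rfl
  rw [e1, pdSub (dLL.fun_sub dadv) ((d2.fun_mul dU).fun_mul dW), pdSub dLL dadv,
    pdMul (d2.fun_mul dU) dW, pdMul d2 dU, pdConst, pLL, padv]
  ring

theorem t_EqJ : StmAAs → StmAxF → StmAlg → StmJnt → StmEqW → StmEqJ := by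
  intro _ hAx hAlg hJnt hE T E c R H u p h t ht x hx hsx
  have hsm : ∀ s ∈ Ioo 0 T, ContDiff ℝ ∞ (u s) := fun s hs => slS h.smooth_u hs
  have hA : ∀ s ∈ Ioo 0 T, _ := fun s hs => hAlg (u s) (hsm s hs) (h.axi s hs)
  have hv := hsm t ht
  have hW : ContDiff ℝ ∞ (WW (u t)) := (hA t ht).1.2.1
  have hU : ContDiff ℝ ∞ (UU (u t)) := (hA t ht).1.1
  have hJ : ∀ s ∈ Ioo 0 T, ∀ y, JJ (u s) y = -pd 2 (WW (u s)) y := by
    intro s hs y
    exact ((hA s hs).2.2.2 y).2.2.2.2.2.1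
  -- the time derivative
  have h1 := mixS (f := fun s y => WW (u s) y) (hJnt T u h.smooth_u).2.1 ht 2 x
  have h2 : HasDerivAt (fun s => -pd 2 (WW (u s)) x) _ t := h1.neg
  have h3 : (fun s => JJ (u s) x) =ᶠ[𝓝 t] fun s => -pd 2 (WW (u s)) x := by
    filter_upwards [Ioo_mem_nhds ht.1 ht.2] with s hs
    exact hJ s hs x
  refine (h2.congr_of_eventuallyEq h3).congr_deriv ?_
  -- the equation of `WW` near `x`
  have h4 : (fun y => deriv (fun s => WW (u s) y) t) =ᶠ[𝓝 x]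
      fun y => LL (WW (u t)) y - W221.NS.adv (u t) (WW (u t)) y - 2 * UU (u t) y * WW (u t) y := by
    have hopen : IsOpen (Co c R H ∩ {y : V | sg y ≠ 0}) :=
      (opCo c R H).inter (isOpen_ne_fun smSg.continuous continuous_const)
    filter_upwards [hopen.mem_nhds ⟨hx, hsx⟩] with y hy
    exact (hE T E c R H u p h t ht y hy.1 hy.2).deriv
  have h5 : pd 2 (fun y => deriv (fun s => WW (u s) y) t) x = _ :=
    (pdCongr h4 2).trans (pdE hv hU hW hsx)
  have h5' : pd 2 (fun y => deriv (fun s => (fun s y => WW (u s) y) s y) t) x = _ := h5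
  rw [h5']
  -- the components of `u`
  have d0 := dfa (smCrd 0) x
  have d1 := dfa (smCrd 1) x
  have dU := dfa hU x
  have dW := dfa hW x
  have u0 : pd 2 (fun y => u t y 0) x = x 0 * pd 2 (UU (u t)) x - x 1 * pd 2 (WW (u t)) x := by
    have e : (fun y => u t y 0) = fun y => y 0 * UU (u t) y - y 1 * WW (u t) y :=
      funext fun y => ((hA t ht).2.2.2 y).1
    rw [e, pdSub (d0.fun_mul dU) (d1.fun_mul dW), pdMul d0 dU, pdMul d1 dW, pdCrd, pdCrd]
    simp only [e02, e12, if_false]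
    ring
  have u1 : pd 2 (fun y => u t y 1) x = x 1 * pd 2 (UU (u t)) x + x 0 * pd 2 (WW (u t)) x := by
    have e : (fun y => u t y 1) = fun y => y 1 * UU (u t) y + y 0 * WW (u t) y :=
      funext fun y => ((hA t ht).2.2.2 y).2.1
    rw [e, pdAdd (d1.fun_mul dU) (d0.fun_mul dW), pdMul d1 dU, pdMul d0 dW, pdCrd, pdCrd]
    simp only [e02, e12, if_false]
    ring
  have u2 : pd 2 (fun y => u t y 2) x = -(2 * UU (u t) x + RR (UU (u t)) x) := by
    have e1 := ((hA t ht).2.2.2 x).2.2.2.2.2.2.2.1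
    have e2 := h.divfree t ht x hx
    rw [e2] at e1
    linear_combination -e1
  have hax := (hAx (WW (u t)) hW (hA t ht).2.1.2.1).1 x
  -- the function `JJ`
  have eJ : JJ (u t) = fun y => -pd 2 (WW (u t)) y := funext fun y => hJ t ht y
  have hD : ContDiff ℝ ∞ (pd 2 (WW (u t))) := smpd hW 2
  have pJ : ∀ j, pd j (JJ (u t)) = fun y => -pd j (pd 2 (WW (u t))) y := by
    intro j
    rw [eJ]
    exact funext fun y => pdNeg j y
  have lJ : lap (JJ (u t)) x = -lap (pd 2 (WW (u t))) x := by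
    unfold lap
    rw [← Finset.sum_neg_distrib]
    refine Finset.sum_congr rfl fun j _ => ?_
    rw [pJ j]
    exact pdNeg j x
  have rJ : RR (JJ (u t)) x = -RR (pd 2 (WW (u t))) x := by
    unfold RR
    rw [pJ 0, pJ 1]
    ring
  have aJ : W221.NS.adv (u t) (JJ (u t)) x = -W221.NS.adv (u t) (pd 2 (WW (u t))) x := by
    unfold W221.NS.adv
    rw [← Finset.sum_neg_distrib]
    refine Finset.sum_congr rfl fun j _ => ?_
    rw [pJ j]
    ring
  rw [Fin.sum_univ_three, u0, u1, u2, aJ]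
  have eL : LL (JJ (u t)) x = -LL (pd 2 (WW (u t))) x := by
    unfold LL
    rw [lJ, rJ]
    ring
  rw [eL]
  unfold SS
  have eR : RR (WW (u t)) x = x 0 * pd 0 (WW (u t)) x + x 1 * pd 1 (WW (u t)) x := rfl
  rw [eR]
  linear_combination (pd 2 (WW (u t)) x) * hax

end Pool.Agent.Q153.AXI
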