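import Pool.Agent.Q153.AXI.Base
import Pool.Agent.Q67.AXI.Defs

/-!
Job AXI-17: `t_EqW : StmAAs → StmAxF → StmAlg → StmJnt → StmEqC → StmEqW`.
-/

set_option autoImplicit false

open MeasureTheory Set Metric Filter Topology
open scoped ContDiff
open H459R3.NS Pool.Agent.W268.NS Pool.Agent.Q67.VD

namespace Pool.Agent.Q153.AXI

open Pool.Agent.Q85.CC Pool.Agent.Q85.CL Pool.Agent.TH305.AX Pool.Agent.Q67.AXI

theorem smSg : ContDiff ℝ ∞ (sg : V → ℝ) := by
  unfold sg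
  fun_prop

theorem pdSg (j : Fin 3) (x : V) :
    pd j sg x = 2 * x 0 * (if (0 : Fin 3) = j then 1 else 0)
      + 2 * x 1 * (if (1 : Fin 3) = j then 1 else 0) := by
  have e : (sg : V → ℝ) = fun y => y 0 * y 0 + y 1 * y 1 := by
    funext y
    unfold sg
    ring
  have d0 := dfa (smCrd 0) x
  have d1 := dfa (smCrd 1) x
  rw [e, pdAdd (d0.fun_mul d0) (d1.fun_mul d1), pdMul d0 d0, pdMul d1 d1, pdCrd, pdCrd]
  ring

theorem pd2Sg (j : Fin 3) (x : V) :
    pd j (pd j sg) x = 2 * (if (0 : Fin 3) = j then 1 else 0)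
      + 2 * (if (1 : Fin 3) = j then 1 else 0) := by
  obtain ⟨c0, hc0⟩ : ∃ c : ℝ, c = if (0 : Fin 3) = j then 1 else 0 := ⟨_, rfl⟩
  obtain ⟨c1, hc1⟩ : ∃ c : ℝ, c = if (1 : Fin 3) = j then 1 else 0 := ⟨_, rfl⟩
  have e : pd j sg = fun y => (2 * c0) * y 0 + (2 * c1) * y 1 := by
    funext y
    rw [pdSg, ← hc0, ← hc1]
    ring
  have d0 := dfa (smCrd 0) x
  have d1 := dfa (smCrd 1) x
  have dc : ∀ c : ℝ, DifferentiableAt ℝ (fun _ : V => c) x := fun c => differentiableAt_const c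
  rw [e, pdAdd ((dc (2 * c0)).fun_mul d0) ((dc (2 * c1)).fun_mul d1), pdMul (dc _) d0, pdMul (dc _) d1,
    pdConst, pdConst, pdCrd, pdCrd, ← hc0, ← hc1]
  have s0 : c0 * c0 = c0 := by
    rw [hc0]
    split_ifs <;> simp
  have s1 : c1 * c1 = c1 := by
    rw [hc1]
    split_ifs <;> simp
  linear_combination 2 * s0 + 2 * s1

/-- `pd`, `lap`, `RR`, `W221.NS.adv` of `sg * W`. -/
theorem pdSgW {W : V → ℝ} (hW : ContDiff ℝ ∞ W) (j : Fin 3) :
    pd j (fun y => sg y * W y) = fun x => pd j sg x * W x + sg x * pd j W x := by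
  funext x
  exact pdMul (dfa smSg x) (dfa hW x) j

theorem pd2SgW {W : V → ℝ} (hW : ContDiff ℝ ∞ W) (j : Fin 3) (x : V) :
    pd j (pd j (fun y => sg y * W y)) x =
      pd j (pd j sg) x * W x + 2 * (pd j sg x * pd j W x) + sg x * pd j (pd j W) x := by
  rw [pdSgW hW j]
  have h1 := smpd smSg j
  have h2 := smpd hW j
  rw [pdAdd ((dfa h1 x).fun_mul (dfa hW x)) ((dfa smSg x).fun_mul (dfa h2 x)), pdMul (dfa h1 x) (dfa hW x),
    pdMul (dfa smSg x) (dfa h2 x)]
  ring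

theorem e01 : ((0 : Fin 3) = 1) = False := by simp
theorem e02 : ((0 : Fin 3) = 2) = False := by simp
theorem e10 : ((1 : Fin 3) = 0) = False := by simp
theorem e12 : ((1 : Fin 3) = 2) = False := by simp

theorem lapSgW {W : V → ℝ} (hW : ContDiff ℝ ∞ W) (x : V) :
    lap (fun y => sg y * W y) x = sg x * lap W x + 4 * RR W x + 4 * W x := by
  unfold lap RR
  simp only [Fin.sum_univ_three, pd2SgW hW, pd2Sg, pdSg, e01, e02, e10, e12, if_true, if_false]
  ring

theorem rrSgW {W : V → ℝ} (hW : ContDiff ℝ ∞ W) (x : V) :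
    RR (fun y => sg y * W y) x = sg x * RR W x + 2 * sg x * W x := by
  unfold RR
  rw [pdSgW hW, pdSgW hW]
  simp only [pdSg, e01, e10, if_true, if_false]
  unfold sg
  ring

theorem advSgW {W : V → ℝ} (hW : ContDiff ℝ ∞ W) (v : V → V) (x : V) :
    W221.NS.adv v (fun y => sg y * W y) x = sg x * W221.NS.adv v W x + 2 * rad v x * W x := by
  unfold W221.NS.adv rad
  simp only [Fin.sum_univ_three, pdSgW hW, pdSg, e01, e02, e10, e12, if_true, if_false]
  ring

theorem t_EqW : StmAAs → StmAxF → StmAlg → StmJnt → StmEqC → StmEqW := by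
  intro _ _ hAlg _ hC T E c R H u p h t ht x hx hsx
  have hsm : ∀ s ∈ Ioo 0 T, ContDiff ℝ ∞ (u s) := fun s hs => slS h.smooth_u hs
  have hcirc : ∀ s ∈ Ioo 0 T, circ (u s) = fun y => sg y * WW (u s) y := by
    intro s hs
    funext y
    exact ((hAlg (u s) (hsm s hs) (h.axi s hs)).2.2.2 y).2.2.2.2.2.2.2.2.1
  have hrad : rad (u t) x = sg x * UU (u t) x :=
    ((hAlg (u t) (hsm t ht) (h.axi t ht)).2.2.2 x).2.2.2.2.2.2.2.2.2.1
  have hW : ContDiff ℝ ∞ (WW (u t)) := (hAlg (u t) (hsm t ht) (h.axi t ht)).1.2.1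
  have h1 := hC T E c R H u p h t ht x hx hsx
  have h2 : HasDerivAt (fun s => circ (u s) x / sg x) _ t := h1.div_const (sg x)
  have h3 : (fun s => WW (u s) x) =ᶠ[𝓝 t] fun s => circ (u s) x / sg x := by
    filter_upwards [Ioo_mem_nhds ht.1 ht.2] with s hs
    rw [hcirc s hs]
    field_simp
  refine (h2.congr_of_eventuallyEq h3).congr_deriv ?_
  rw [hcirc t ht, lapSgW hW, rrSgW hW, advSgW hW, hrad]
  unfold LL
  field_simp
  ring

end Pool.Agent.Q153.AXI
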