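import Pool.Agent.Q153.AXI.Base
import Pool.Agent.Q67.AXI.Defs

/-!
Job AXI-20: `t_Jnt : StmAAs → StmJnt` (joint smoothness of `UU`, `WW`, `JJ`, `OO`).
-/

set_option autoImplicit false

open MeasureTheory Set Metric Filter Topology
open scoped ContDiff
open H459R3.NS Pool.Agent.W268.NS Pool.Agent.Q67.VD

namespace Pool.Agent.Q153.AXI

open Pool.Agent.Q85.CC Pool.Agent.Q85.CL Pool.Agent.TH305.AX Pool.Agent.Q67.AXI

theorem uuJ (hA : StmAAs) {T : ℝ} {w : ℝ → V → V}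
    (hw : ∀ i, ContDiffOn ℝ ∞ (fun z : ℝ × V => w z.1 z.2 i) (Ioo 0 T ×ˢ univ)) :
    ContDiffOn ℝ ∞ (fun z : ℝ × V => UU (w z.1) z.2) (Ioo 0 T ×ˢ univ) := by
  have h1 := (jpd (f := fun t y => w t y 0) (hw 0) 0).add (jpd (f := fun t y => w t y 1) (hw 1) 1)
  exact hA.2.1 0 T (fun t y => pd 0 (fun z => w t z 0) y + pd 1 (fun z => w t z 1) y) h1

theorem wwJ (hA : StmAAs) {T : ℝ} {w : ℝ → V → V}
    (hw : ∀ i, ContDiffOn ℝ ∞ (fun z : ℝ × V => w z.1 z.2 i) (Ioo 0 T ×ˢ univ)) :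
    ContDiffOn ℝ ∞ (fun z : ℝ × V => WW (w z.1) z.2) (Ioo 0 T ×ˢ univ) := by
  have h1 := (jpd (f := fun t y => w t y 1) (hw 1) 0).sub (jpd (f := fun t y => w t y 0) (hw 0) 1)
  exact hA.2.1 0 T (fun t y => pd 0 (fun z => w t z 1) y - pd 1 (fun z => w t z 0) y) h1

theorem voJ {T : ℝ} {w : ℝ → V → V}
    (hw : ∀ i, ContDiffOn ℝ ∞ (fun z : ℝ × V => w z.1 z.2 i) (Ioo 0 T ×ˢ univ)) :
    ∀ i, ContDiffOn ℝ ∞ (fun z : ℝ × V => vort (w z.1) z.2 i) (Ioo 0 T ×ˢ univ) := by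
  have hp : ∀ j i, ContDiffOn ℝ ∞ (fun z : ℝ × V => pd j (fun y => w z.1 y i) z.2)
      (Ioo 0 T ×ˢ univ) := fun j i => jpd (f := fun t y => w t y i) (hw i) j
  intro i
  fin_cases i
  · exact (hp 1 2).sub (hp 2 1)
  · exact (hp 2 0).sub (hp 0 2)
  · exact (hp 0 1).sub (hp 1 0)

theorem t_Jnt : StmAAs → StmJnt := by
  intro hA T u hu
  have hw : ∀ i, ContDiffOn ℝ ∞ (fun z : ℝ × V => u z.1 z.2 i) (Ioo 0 T ×ˢ univ) :=
    contDiffOn_pi.1 hu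
  have hv := voJ hw
  exact ⟨uuJ hA hw, wwJ hA hw, uuJ (w := fun t => vort (u t)) hA hv,
    wwJ (w := fun t => vort (u t)) hA hv⟩

end Pool.Agent.Q153.AXI
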