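import Pool.Agent.Q153.AXI.Base
import Pool.Agent.Q67.AXI.Defs

/-!
AXI-15 (project AXI of helper67): cut-off functions at all points and scales whose radial
derivative is small near the axis.
-/

set_option autoImplicit false

open MeasureTheory Set Metric Filter Topology
open scoped ContDiff
open H459R3.NS Pool.Agent.W268.NS Pool.Agent.Q67.VD

namespace Pool.Agent.Q153.AXI
open Pool.Agent.Q85.CC Pool.Agent.Q85.CL Pool.Agent.TH305.AX Pool.Agent.Q67.AXI

/-- The cut-off in one variable. -/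
theorem exChi : ∃ (χ : ℝ → ℝ) (K : ℝ), 0 < K ∧ ContDiff ℝ ∞ χ ∧ (∀ s, 0 ≤ χ s ∧ χ s ≤ 1) ∧
    (∀ s, s ≤ 1 → χ s = 1) ∧ (∀ s, 2 ≤ s → χ s = 0) ∧ (∀ s, |deriv χ s| ≤ K) ∧
    (∀ s, deriv χ s ≠ 0 → 1 ≤ s ∧ s ≤ 2) := by
  have hsm : ContDiff ℝ ∞ (fun s : ℝ => Real.smoothTransition (2 - s)) :=
    Real.smoothTransition.contDiff.comp (contDiff_const.sub contDiff_id)
  have hd1 : ∀ s : ℝ, s < 1 → deriv (fun s : ℝ => Real.smoothTransition (2 - s)) s = 0 := by
    intro s hs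
    have : (fun s : ℝ => Real.smoothTransition (2 - s)) =ᶠ[𝓝 s] fun _ => (1 : ℝ) := by
      filter_upwards [Iio_mem_nhds hs] with z hz
      exact Real.smoothTransition.one_of_one_le (by linarith [mem_Iio.mp hz])
    rw [this.deriv_eq]
    simp
  have hd2 : ∀ s : ℝ, 2 < s → deriv (fun s : ℝ => Real.smoothTransition (2 - s)) s = 0 := by
    intro s hs
    have : (fun s : ℝ => Real.smoothTransition (2 - s)) =ᶠ[𝓝 s] fun _ => (0 : ℝ) := by
      filter_upwards [Ioi_mem_nhds hs] with z hz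
      exact Real.smoothTransition.zero_of_nonpos (by linarith [mem_Ioi.mp hz])
    rw [this.deriv_eq]
    simp
  have hc : Continuous (deriv (fun s : ℝ => Real.smoothTransition (2 - s))) :=
    hsm.continuous_deriv (by norm_cast)
  obtain ⟨C, hC⟩ := (isCompact_Icc (a := (1 : ℝ)) (b := 2)).exists_bound_of_continuousOn
    hc.continuousOn
  have hC0 : 0 ≤ C := (norm_nonneg _).trans (hC 1 ⟨le_refl _, by norm_num⟩)
  refine ⟨fun s => Real.smoothTransition (2 - s), C + 1, by linarith, hsm,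
    fun s => ⟨Real.smoothTransition.nonneg _, Real.smoothTransition.le_one _⟩,
    fun s hs => Real.smoothTransition.one_of_one_le (by linarith),
    fun s hs => Real.smoothTransition.zero_of_nonpos (by linarith), fun s => ?_, fun s hs => ?_⟩
  · rcases lt_or_ge s 1 with h | h
    · rw [hd1 s h]; simp; linarith
    rcases lt_or_ge 2 s with h' | h'
    · rw [hd2 s h']; simp; linarith
    have := hC s ⟨h, h'⟩
    rw [Real.norm_eq_abs] at this
    linarith
  · by_contra hcon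
    apply hs
    rcases lt_or_ge s 1 with h | h
    · exact hd1 s h
    · exact hd2 s (by
        by_contra h'
        exact hcon ⟨h, not_lt.mp h'⟩)

theorem smSgP : ContDiff ℝ ∞ sg := by
  unfold sg
  fun_prop

theorem pdSqS (i j : Fin 3) (c : ℝ) (x : V) :
    pd j (fun y : V => (y i - c) ^ 2) x = if i = j then 2 * (x i - c) else 0 := by
  have h : (fun y : V => (y i - c) ^ 2) = fun y : V => (y i - c) * (y i - c) := by
    funext y; ring
  have hd : DifferentiableAt ℝ (fun y : V => y i - c) x := by fun_prop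
  rw [h, pdMul hd hd]
  have h1 : pd j (fun y : V => y i - c) x = if i = j then 1 else 0 := by
    rw [pdSub (f := fun y : V => y i) (g := fun _ => c) (by fun_prop) (by fun_prop), pdCrd,
      pdConst]
    simp
  rw [h1]
  split_ifs
  · ring
  · ring

theorem pdSgP (j : Fin 3) (x : V) :
    pd j sg x = if j = 0 then 2 * x 0 else if j = 1 then 2 * x 1 else 0 := by
  have h : sg = fun y : V => (y 0 - 0) ^ 2 + (y 1 - 0) ^ 2 := by
    funext y; unfold sg; ring
  rw [h, pdAdd (by fun_prop) (by fun_prop), pdSqS, pdSqS]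
  fin_cases j <;> simp

theorem pdQuo {f : V → ℝ} {x : V} (hf : DifferentiableAt ℝ f x) (d : ℝ) (j : Fin 3) :
    pd j (fun y => f y / d) x = pd j f x / d := by
  have h : (fun y => f y / d) = fun y => f y * d⁻¹ := by
    funext y; rw [div_eq_mul_inv]
  rw [h, pdMul hf (by fun_prop), pdConst]
  rw [div_eq_mul_inv]; ring

theorem sqAbs {a b c : ℝ} (h : |a - b| ≤ c) : a ^ 2 ≤ 2 * b ^ 2 + 2 * c ^ 2 := by
  have h1 : (a - b) ^ 2 ≤ c ^ 2 := by
    rw [← sq_abs (a - b)]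
    exact pow_le_pow_left₀ (abs_nonneg _) h 2
  nlinarith [sq_nonneg (a - 2 * b)]

theorem absSq {a c : ℝ} (hc : 0 ≤ c) (h : a ^ 2 ≤ c ^ 2) : |a| ≤ c := abs_le_of_sq_le_sq h hc

theorem crdBall {x y : V} {r : ℝ} (hy : y ∈ closedBall x r) (i : Fin 3) : |y i - x i| ≤ r := by
  have h1 : ‖y - x‖ ≤ r := by rwa [mem_closedBall, dist_eq_norm] at hy
  have h2 := norm_le_pi_norm (y - x) i
  rw [Pi.sub_apply, Real.norm_eq_abs] at h2
  exact h2.trans h1

/-- The case close to the axis. -/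
theorem psiA {χ : ℝ → ℝ} {K : ℝ} (hK : 0 < K) (hs : ContDiff ℝ ∞ χ) (h01 : ∀ s, 0 ≤ χ s ∧ χ s ≤ 1)
    (h1 : ∀ s, s ≤ 1 → χ s = 1) (h2 : ∀ s, 2 ≤ s → χ s = 0) (hd : ∀ s, |deriv χ s| ≤ K)
    (hdd : ∀ s, deriv χ s ≠ 0 → 1 ≤ s ∧ s ≤ 2) (x : V) (r : ℝ) (hr : 0 < r)
    (hx : sg x ≤ 64 * r ^ 2) : ∃ ψ : V → ℝ, ContDiff ℝ ∞ ψ ∧
  (∀ y, 0 ≤ ψ y ∧ ψ y ≤ 1) ∧ (∀ y ∈ closedBall x r, ψ y = 1) ∧
  (∀ y, ψ y ≠ 0 → ‖y - x‖ ≤ 28 * r) ∧ (∀ y i, |pd i ψ y| ≤ 4 * K / r) ∧
  ∀ y, |RR ψ y| ≤ K / r ^ 2 * sg y := by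
  have hr2 : 0 < r ^ 2 := by positivity
  have hdf : ∀ s, DifferentiableAt ℝ χ s := fun s => (hs.differentiable (by norm_cast)) s
  have hd200 : ∀ y : V, DifferentiableAt ℝ (fun y : V => sg y / (200 * r ^ 2)) y := by
    intro y; unfold sg; fun_prop
  have hdq : ∀ y : V, DifferentiableAt ℝ (fun y : V => (y 2 - x 2) ^ 2 / r ^ 2) y := by
    intro y; fun_prop
  have sA : ContDiff ℝ ∞ (fun y : V => χ (sg y / (200 * r ^ 2))) :=
    hs.comp (smSgP.div_const _)
  have sB : ContDiff ℝ ∞ (fun y : V => χ ((y 2 - x 2) ^ 2 / r ^ 2)) := by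
    apply hs.comp
    fun_prop
  have pA : ∀ (y : V) (i : Fin 3), pd i (fun y : V => χ (sg y / (200 * r ^ 2))) y =
      deriv χ (sg y / (200 * r ^ 2)) * (pd i sg y / (200 * r ^ 2)) := by
    intro y i
    rw [pdComp (hdf _) (hd200 y), pdQuo (dfa smSgP y)]
  have pB : ∀ (y : V) (i : Fin 3), pd i (fun y : V => χ ((y 2 - x 2) ^ 2 / r ^ 2)) y =
      deriv χ ((y 2 - x 2) ^ 2 / r ^ 2) * ((if (2 : Fin 3) = i then 2 * (y 2 - x 2) else 0)
        / r ^ 2) := by
    intro y i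
    rw [pdComp (hdf _) (hdq y), pdQuo (by fun_prop), pdSqS]
  have pM : ∀ (y : V) (i : Fin 3), pd i (fun y : V => χ (sg y / (200 * r ^ 2)) *
      χ ((y 2 - x 2) ^ 2 / r ^ 2)) y =
      deriv χ (sg y / (200 * r ^ 2)) * (pd i sg y / (200 * r ^ 2)) * χ ((y 2 - x 2) ^ 2 / r ^ 2) +
      χ (sg y / (200 * r ^ 2)) * (deriv χ ((y 2 - x 2) ^ 2 / r ^ 2) *
        ((if (2 : Fin 3) = i then 2 * (y 2 - x 2) else 0) / r ^ 2)) := by
    intro y i
    rw [pdMul (dfa sA y) (dfa sB y), pA, pB]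
  have absle : ∀ s, |χ s| ≤ 1 := fun s => by
    rw [abs_of_nonneg (h01 s).1]; exact (h01 s).2
  refine ⟨fun y => χ (sg y / (200 * r ^ 2)) * χ ((y 2 - x 2) ^ 2 / r ^ 2), sA.mul sB,
    fun y => ⟨mul_nonneg (h01 _).1 (h01 _).1, mul_le_one₀ (h01 _).2 (h01 _).1 (h01 _).2⟩,
    fun y hy => ?_, fun y hy => ?_, fun y i => ?_, fun y => ?_⟩
  · have a0 := sqAbs (crdBall hy 0)
    have a1 := sqAbs (crdBall hy 1)
    have a2 : (y 2 - x 2) ^ 2 ≤ r ^ 2 := by
      rw [← sq_abs (y 2 - x 2)]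
      exact pow_le_pow_left₀ (abs_nonneg _) (crdBall hy 2) 2
    have b1 : sg y / (200 * r ^ 2) ≤ 1 := by
      rw [div_le_one (by positivity)]
      unfold sg at hx ⊢
      nlinarith
    have b2 : (y 2 - x 2) ^ 2 / r ^ 2 ≤ 1 := by
      rw [div_le_one (by positivity)]; exact a2
    show χ (sg y / (200 * r ^ 2)) * χ ((y 2 - x 2) ^ 2 / r ^ 2) = 1
    rw [h1 _ b1, h1 _ b2, one_mul]
  · have c1 : sg y / (200 * r ^ 2) < 2 := by
      by_contra h
      exact hy (by
        show χ (sg y / (200 * r ^ 2)) * χ ((y 2 - x 2) ^ 2 / r ^ 2) = 0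
        rw [h2 _ (not_lt.mp h), zero_mul])
    have c2 : (y 2 - x 2) ^ 2 / r ^ 2 < 2 := by
      by_contra h
      exact hy (by
        show χ (sg y / (200 * r ^ 2)) * χ ((y 2 - x 2) ^ 2 / r ^ 2) = 0
        rw [h2 _ (not_lt.mp h), mul_zero])
    rw [div_lt_iff₀ (by positivity)] at c1 c2
    unfold sg at c1 hx
    have y0 : |y 0| ≤ 20 * r := absSq (by positivity) (by nlinarith [sq_nonneg (y 1)])
    have y1 : |y 1| ≤ 20 * r := absSq (by positivity) (by nlinarith [sq_nonneg (y 0)])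
    have x0 : |x 0| ≤ 8 * r := absSq (by positivity) (by nlinarith [sq_nonneg (x 1)])
    have x1 : |x 1| ≤ 8 * r := absSq (by positivity) (by nlinarith [sq_nonneg (x 0)])
    have y2 : |y 2 - x 2| ≤ 2 * r := absSq (by positivity) (by nlinarith)
    rw [pi_norm_le_iff_of_nonneg (by positivity)]
    intro i
    rw [Pi.sub_apply, Real.norm_eq_abs]
    rw [abs_le] at y0 y1 x0 x1 y2 ⊢
    fin_cases i
    · simp only [Fin.zero_eta]
      constructor <;> linarith
    · simp only [Fin.mk_one]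
      constructor <;> linarith
    · simp only [Fin.reduceFinMk]
      constructor <;> linarith
  · show |pd i (fun y : V => χ (sg y / (200 * r ^ 2)) * χ ((y 2 - x 2) ^ 2 / r ^ 2)) y| ≤ _
    rw [pM]
    have q1 : ∀ j : Fin 3, j ≠ 2 → |deriv χ (sg y / (200 * r ^ 2)) * (2 * y j / (200 * r ^ 2))| ≤
        4 * K / r := by
      intro j hj
      by_cases h0 : deriv χ (sg y / (200 * r ^ 2)) = 0
      · rw [h0, zero_mul, abs_zero]; positivity
      have h3 := (hdd _ h0).2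
      rw [div_le_iff₀ (by positivity)] at h3
      have h4 : |y j| ≤ 20 * r := by
        apply absSq (by positivity)
        unfold sg at h3
        have : j = 0 ∨ j = 1 := by omega
        rcases this with rfl | rfl
        · nlinarith [sq_nonneg (y 1)]
        · nlinarith [sq_nonneg (y 0)]
      rw [abs_mul, abs_div, abs_mul, abs_of_pos (by positivity : (0 : ℝ) < 200 * r ^ 2),
        abs_of_pos (by norm_num : (0 : ℝ) < 2)]
      calc |deriv χ (sg y / (200 * r ^ 2))| * (2 * |y j| / (200 * r ^ 2))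
          ≤ K * (2 * (20 * r) / (200 * r ^ 2)) := by gcongr; exact hd _
        _ = K / 5 / r := by field_simp; ring
        _ ≤ 4 * K / r := by gcongr; linarith
    have q2 : |deriv χ ((y 2 - x 2) ^ 2 / r ^ 2) * (2 * (y 2 - x 2) / r ^ 2)| ≤ 4 * K / r := by
      by_cases h0 : deriv χ ((y 2 - x 2) ^ 2 / r ^ 2) = 0
      · rw [h0, zero_mul, abs_zero]; positivity
      have h3 := (hdd _ h0).2
      rw [div_le_iff₀ (by positivity)] at h3
      have h4 : |y 2 - x 2| ≤ 2 * r := absSq (by positivity) (by nlinarith)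
      rw [abs_mul, abs_div, abs_mul, abs_of_pos hr2, abs_of_pos (by norm_num : (0 : ℝ) < 2)]
      calc |deriv χ ((y 2 - x 2) ^ 2 / r ^ 2)| * (2 * |y 2 - x 2| / r ^ 2)
          ≤ K * (2 * (2 * r) / r ^ 2) := by gcongr; exact hd _
        _ = 4 * K / r := by field_simp; ring
    by_cases hi : i = 2
    · subst hi
      rw [pdSgP]
      simp only [Fin.reduceEq, if_false, if_true, zero_div, mul_zero, zero_mul, zero_add]
      rw [abs_mul]
      calc _ ≤ 1 * (4 * K / r) := by gcongr; exact absle _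
        _ = _ := one_mul _
    · rw [if_neg (Ne.symm hi)]
      simp only [zero_div, mul_zero, add_zero]
      have h5 : pd i sg y = 2 * y i := by
        rw [pdSgP]
        have : i = 0 ∨ i = 1 := by omega
        rcases this with rfl | rfl
        · simp
        · simp
      rw [h5, abs_mul]
      calc _ ≤ (4 * K / r) * 1 := by gcongr; exact q1 i hi; exact absle _
        _ = _ := mul_one _
  · have e : RR (fun y : V => χ (sg y / (200 * r ^ 2)) * χ ((y 2 - x 2) ^ 2 / r ^ 2)) y =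
        deriv χ (sg y / (200 * r ^ 2)) * χ ((y 2 - x 2) ^ 2 / r ^ 2) * (2 * sg y / (200 * r ^ 2))
          := by
      unfold RR
      rw [pM, pM, pdSgP, pdSgP]
      simp only [Fin.reduceEq, if_false, if_true, zero_div, mul_zero, add_zero]
      unfold sg
      ring
    rw [e]
    have hsg : 0 ≤ sg y := by unfold sg; positivity
    rw [abs_mul, abs_mul, abs_of_nonneg (by positivity : (0 : ℝ) ≤ 2 * sg y / (200 * r ^ 2))]
    calc |deriv χ (sg y / (200 * r ^ 2))| * |χ ((y 2 - x 2) ^ 2 / r ^ 2)| *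
          (2 * sg y / (200 * r ^ 2)) ≤ K * 1 * (2 * sg y / (200 * r ^ 2)) := by
          gcongr
          · exact hd _
          · exact absle _
      _ = K / 100 / r ^ 2 * sg y := by field_simp; ring
      _ ≤ K / r ^ 2 * sg y := by gcongr; linarith

/-- The case away from the axis. -/
theorem psiB {χ : ℝ → ℝ} {K : ℝ} (hK : 0 < K) (hs : ContDiff ℝ ∞ χ) (h01 : ∀ s, 0 ≤ χ s ∧ χ s ≤ 1)
    (h1 : ∀ s, s ≤ 1 → χ s = 1) (h2 : ∀ s, 2 ≤ s → χ s = 0) (hd : ∀ s, |deriv χ s| ≤ K)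
    (hdd : ∀ s, deriv χ s ≠ 0 → 1 ≤ s ∧ s ≤ 2) (x : V) (r : ℝ) (hr : 0 < r)
    (hx : 64 * r ^ 2 < sg x) : ∃ ψ : V → ℝ, ContDiff ℝ ∞ ψ ∧
  (∀ y, 0 ≤ ψ y ∧ ψ y ≤ 1) ∧ (∀ y ∈ closedBall x r, ψ y = 1) ∧
  (∀ y, ψ y ≠ 0 → ‖y - x‖ ≤ 28 * r) ∧ (∀ y i, |pd i ψ y| ≤ 4 * K / r) ∧
  ∀ y, |RR ψ y| ≤ 8 * K / r ^ 2 * sg y := by
  have hr2 : 0 < r ^ 2 := by positivity
  have hdf : ∀ s, DifferentiableAt ℝ χ s := fun s => (hs.differentiable (by norm_cast)) s
  set g : Fin 3 → V → ℝ := fun j y => χ ((y j - x j) ^ 2 / r ^ 2) with hg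
  have sg' : ∀ j, ContDiff ℝ ∞ (g j) := by
    intro j
    apply hs.comp
    fun_prop
  have pB : ∀ (y : V) (j i : Fin 3), pd i (g j) y =
      if j = i then deriv χ ((y j - x j) ^ 2 / r ^ 2) * (2 * (y j - x j) / r ^ 2) else 0 := by
    intro y j i
    rw [hg]
    simp only
    rw [pdComp (g := fun y : V => (y j - x j) ^ 2 / r ^ 2) (hdf _) (by fun_prop),
      pdQuo (by fun_prop), pdSqS]
    split_ifs
    · rfl
    · simp
  have absle : ∀ s, |χ s| ≤ 1 := fun s => by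
    rw [abs_of_nonneg (h01 s).1]; exact (h01 s).2
  have g01 : ∀ j y, 0 ≤ g j y ∧ g j y ≤ 1 := fun j y => h01 _
  have gabs : ∀ j y, |g j y| ≤ 1 := fun j y => absle _
  have pM : ∀ (y : V) (i : Fin 3), pd i (fun y : V => g 0 y * g 1 y * g 2 y) y =
      (pd i (g 0) y * g 1 y + g 0 y * pd i (g 1) y) * g 2 y + g 0 y * g 1 y * pd i (g 2) y := by
    intro y i
    have e1 := pdMul (f := fun y => g 0 y * g 1 y) (g := g 2) (x := y)
      (dfa ((sg' 0).mul (sg' 1)) y) (dfa (sg' 2) y) i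
    have e2 := pdMul (f := g 0) (g := g 1) (x := y) (dfa (sg' 0) y) (dfa (sg' 1) y) i
    rw [e1, e2]
  -- the values and the derivatives of the factors vanish away from the cube
  have gz : ∀ j y, g j y ≠ 0 → |y j - x j| ^ 2 ≤ 2 * r ^ 2 := by
    intro j y h
    by_contra hcon
    apply h
    apply h2
    rw [le_div_iff₀ hr2]
    rw [sq_abs] at hcon
    linarith [not_le.mp hcon]
  have dz : ∀ j y, pd j (g j) y ≠ 0 → |y j - x j| ^ 2 ≤ 2 * r ^ 2 := by
    intro j y h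
    rw [pB, if_pos rfl] at h
    have h3 := (hdd _ (left_ne_zero_of_mul h)).2
    rw [div_le_iff₀ hr2] at h3
    rw [sq_abs]
    exact h3
  have db : ∀ j y, |pd j (g j) y| ≤ 4 * K / r := by
    intro j y
    by_cases h0 : pd j (g j) y = 0
    · rw [h0, abs_zero]; positivity
    have h3 := dz j y h0
    have h4 : |y j - x j| ≤ 2 * r := by
      apply absSq (by positivity)
      rw [sq_abs] at h3
      nlinarith
    rw [pB, if_pos rfl, abs_mul, abs_div, abs_mul, abs_of_pos hr2,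
      abs_of_pos (by norm_num : (0 : ℝ) < 2)]
    calc |deriv χ ((y j - x j) ^ 2 / r ^ 2)| * (2 * |y j - x j| / r ^ 2)
        ≤ K * (2 * (2 * r) / r ^ 2) := by gcongr; exact hd _
      _ = 4 * K / r := by field_simp; ring
  have p0 : ∀ y, pd 0 (fun y : V => g 0 y * g 1 y * g 2 y) y = pd 0 (g 0) y * (g 1 y * g 2 y) := by
    intro y
    rw [pM, pB y 1 0, pB y 2 0]
    simp only [Fin.reduceEq, if_false]
    ring
  have p1 : ∀ y, pd 1 (fun y : V => g 0 y * g 1 y * g 2 y) y = pd 1 (g 1) y * (g 0 y * g 2 y) := by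
    intro y
    rw [pM, pB y 0 1, pB y 2 1]
    simp only [Fin.reduceEq, if_false]
    ring
  have p2 : ∀ y, pd 2 (fun y : V => g 0 y * g 1 y * g 2 y) y = pd 2 (g 2) y * (g 0 y * g 1 y) := by
    intro y
    rw [pM, pB y 0 2, pB y 1 2]
    simp only [Fin.reduceEq, if_false]
    ring
  have hbd : ∀ j k l : Fin 3, ∀ y, |pd j (g j) y * (g k y * g l y)| ≤ 4 * K / r := by
    intro j k l y
    rw [abs_mul, abs_mul]
    calc _ ≤ (4 * K / r) * (1 * 1) := by
          gcongr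
          · exact db j y
          · exact gabs k y
          · exact gabs l y
      _ = _ := by ring
  -- on the support `sg y` is large
  have big : ∀ y : V, |y 0 - x 0| ^ 2 ≤ 2 * r ^ 2 → |y 1 - x 1| ^ 2 ≤ 2 * r ^ 2 →
      28 * r ^ 2 ≤ sg y := by
    intro y e0 e1
    rw [sq_abs] at e0 e1
    unfold sg at hx ⊢
    nlinarith [sq_nonneg (x 0 - 2 * y 0), sq_nonneg (x 1 - 2 * y 1)]
  have rb : ∀ y : V, 28 * r ^ 2 ≤ sg y → ∀ j : Fin 3, j ≠ 2 → |y j| * (4 * K / r) ≤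
      4 * K / r ^ 2 * sg y := by
    intro y hy j hj
    have h3 : |y j| * r ≤ sg y := by
      have h4 : |y j| ^ 2 ≤ sg y := by
        rw [sq_abs]
        unfold sg
        have : j = 0 ∨ j = 1 := by omega
        rcases this with rfl | rfl
        · nlinarith [sq_nonneg (y 1)]
        · nlinarith [sq_nonneg (y 0)]
      nlinarith [sq_nonneg (|y j| - r)]
    calc |y j| * (4 * K / r) = 4 * K / r ^ 2 * (|y j| * r) := by field_simp
      _ ≤ 4 * K / r ^ 2 * sg y := by gcongr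
  have t0 : ∀ y : V, |y 0 * (pd 0 (g 0) y * (g 1 y * g 2 y))| ≤ 4 * K / r ^ 2 * sg y := by
    intro y
    have hsg : 0 ≤ sg y := by unfold sg; positivity
    by_cases h0 : pd 0 (g 0) y * (g 1 y * g 2 y) = 0
    · rw [h0, mul_zero, abs_zero]; positivity
    have e0 := dz 0 y (left_ne_zero_of_mul h0)
    have e1 := gz 1 y (left_ne_zero_of_mul (right_ne_zero_of_mul h0))
    rw [abs_mul]
    exact (mul_le_mul_of_nonneg_left (hbd 0 1 2 y) (abs_nonneg _)).trans
      (rb y (big y e0 e1) 0 (by decide))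
  have t1 : ∀ y : V, |y 1 * (pd 1 (g 1) y * (g 0 y * g 2 y))| ≤ 4 * K / r ^ 2 * sg y := by
    intro y
    have hsg : 0 ≤ sg y := by unfold sg; positivity
    by_cases h0 : pd 1 (g 1) y * (g 0 y * g 2 y) = 0
    · rw [h0, mul_zero, abs_zero]; positivity
    have e1 := dz 1 y (left_ne_zero_of_mul h0)
    have e0 := gz 0 y (left_ne_zero_of_mul (right_ne_zero_of_mul h0))
    rw [abs_mul]
    exact (mul_le_mul_of_nonneg_left (hbd 1 0 2 y) (abs_nonneg _)).trans
      (rb y (big y e0 e1) 1 (by decide))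
  refine ⟨fun y => g 0 y * g 1 y * g 2 y, ((sg' 0).mul (sg' 1)).mul (sg' 2),
    fun y => ⟨mul_nonneg (mul_nonneg (g01 0 y).1 (g01 1 y).1) (g01 2 y).1,
      mul_le_one₀ (mul_le_one₀ (g01 0 y).2 (g01 1 y).1 (g01 1 y).2) (g01 2 y).1 (g01 2 y).2⟩,
    fun y hy => ?_, fun y hy => ?_, fun y i => ?_, fun y => ?_⟩
  · have a : ∀ j, g j y = 1 := by
      intro j
      apply h1
      rw [div_le_one (by positivity), ← sq_abs (y j - x j)]
      exact pow_le_pow_left₀ (abs_nonneg _) (crdBall hy j) 2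
    show g 0 y * g 1 y * g 2 y = 1
    rw [a, a, a]
    norm_num
  · have hy' : g 0 y * g 1 y * g 2 y ≠ 0 := hy
    have c2 := gz 2 y (right_ne_zero_of_mul hy')
    have c1 := gz 1 y (right_ne_zero_of_mul (left_ne_zero_of_mul hy'))
    have c0 := gz 0 y (left_ne_zero_of_mul (left_ne_zero_of_mul hy'))
    rw [pi_norm_le_iff_of_nonneg (by positivity)]
    intro i
    rw [Pi.sub_apply, Real.norm_eq_abs]
    have c : |y i - x i| ^ 2 ≤ 2 * r ^ 2 := by
      fin_cases i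
      · exact c0
      · exact c1
      · exact c2
    apply absSq (by positivity)
    rw [sq_abs] at c
    nlinarith
  · show |pd i (fun y : V => g 0 y * g 1 y * g 2 y) y| ≤ _
    fin_cases i
    · simp only [Fin.zero_eta]
      rw [p0]
      exact hbd _ _ _ _
    · simp only [Fin.mk_one]
      rw [p1]
      exact hbd _ _ _ _
    · simp only [Fin.reduceFinMk]
      rw [p2]
      exact hbd _ _ _ _
  · show |y 0 * pd 0 (fun y : V => g 0 y * g 1 y * g 2 y) y +
      y 1 * pd 1 (fun y : V => g 0 y * g 1 y * g 2 y) y| ≤ _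
    rw [p0, p1]
    calc _ ≤ _ := abs_add_le _ _
      _ ≤ 4 * K / r ^ 2 * sg y + 4 * K / r ^ 2 * sg y := add_le_add (t0 y) (t1 y)
      _ = _ := by ring

/-- AXI-15. -/
theorem t_Psi : StmPsi := by
  obtain ⟨χ, K, hK, hs, h01, h1, h2, hd, hdd⟩ := exChi
  refine ⟨28 + 8 * K, by positivity, fun x r hr => ?_⟩
  have key : ∃ ψ : V → ℝ, ContDiff ℝ ∞ ψ ∧
      (∀ y, 0 ≤ ψ y ∧ ψ y ≤ 1) ∧ (∀ y ∈ closedBall x r, ψ y = 1) ∧
      (∀ y, ψ y ≠ 0 → ‖y - x‖ ≤ 28 * r) ∧ (∀ y i, |pd i ψ y| ≤ 4 * K / r) ∧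
      ∀ y, |RR ψ y| ≤ 8 * K / r ^ 2 * sg y := by
    rcases le_or_gt (sg x) (64 * r ^ 2) with h | h
    · obtain ⟨ψ, a1, a2, a3, a4, a5, a6⟩ := psiA hK hs h01 h1 h2 hd hdd x r hr h
      refine ⟨ψ, a1, a2, a3, a4, a5, fun y => (a6 y).trans ?_⟩
      have hsg : 0 ≤ sg y := by unfold sg; positivity
      gcongr
      linarith
    · exact psiB hK hs h01 h1 h2 hd hdd x r hr h
  obtain ⟨ψ, a1, a2, a3, a4, a5, a6⟩ := key
  refine ⟨ψ, a1, a2, a3, fun y hy => (a4 y hy).trans ?_, fun y i => (a5 y i).trans ?_,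
    fun y => (a6 y).trans ?_⟩
  · gcongr
    linarith
  · gcongr
    linarith
  · have hsg : 0 ≤ sg y := by unfold sg; positivity
    gcongr
    linarith

end Pool.Agent.Q153.AXI
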