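import Pool.Agent.Q153.AXI.Base
import Pool.Agent.Q67.AXI.Defs3

/-!
Job AXP-2: `t_T2P : StmAlg → StmHar → StmT2P`. On the region `sg ≤ P` one has
`|WW| ≤ C (log M) ^ (2 - α') / (sg log² sg)`; elsewhere `|WW| ≤ C₀ / sg`.
-/

set_option autoImplicit false

open MeasureTheory Set Metric Filter Topology
open scoped ContDiff
open H459R3.NS Pool.Agent.W268.NS Pool.Agent.Q67.VD

namespace Pool.Agent.Q153.AXI

open Pool.Agent.Q85.CC Pool.Agent.Q85.CL Pool.Agent.TH305.AX Pool.Agent.Q67.AXI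

theorem axNull : volume {x : V | sg x = 0} = 0 := by
  have h : {x : V | sg x = 0} ⊆ {x : V | x 0 = 0} := by
    intro x hx
    rw [Set.mem_ofPred_eq] at hx ⊢
    unfold sg at hx
    nlinarith [sq_nonneg (x 0), sq_nonneg (x 1)]
  exact measure_mono_null h (Measure.pi_hyperplane (fun _ : Fin 3 => (volume : Measure ℝ)) 0 0)

theorem smSgT : ContDiff ℝ ∞ (sg : V → ℝ) := by
  unfold sg
  fun_prop

/-- The bound of `WW` in the inner region. -/
theorem ptW {s M α' C' w : ℝ} (hs : 0 < s) (hs2 : s ≤ Real.exp (-2)) (hM : 3 ≤ M)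
    (h1 : 1 < α') (h2 : α' ≤ 2) (hC : 0 ≤ C') (hwM : w ≤ M)
    (hw : s * w ≤ C' * |Real.log s| ^ (-α')) :
    w ≤ (2 * C' + 8) * Real.log M ^ (2 - α') / (s * Real.log s ^ 2) := by
  have hl2 : Real.log s ≤ -2 := by
    rw [← Real.log_exp (-2)]
    exact Real.log_le_log hs hs2
  set l := -Real.log s with hl
  have hl2' : 2 ≤ l := by linarith
  have hls : Real.log s ^ 2 = l ^ 2 := by rw [hl]; ring
  have habs : |Real.log s| = l := by rw [abs_of_nonpos (by linarith)]
  have hse : s = Real.exp (-l) := by rw [hl, neg_neg, Real.exp_log hs]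
  have hL1 : 1 ≤ Real.log M := by
    rw [Real.le_log_iff_exp_le (by linarith)]
    linarith [Real.exp_one_lt_d9]
  have hLp : 1 ≤ Real.log M ^ (2 - α') := Real.one_le_rpow hL1 (by linarith)
  rw [habs] at hw
  rw [hls]
  have hl0 : 0 < l := by linarith
  have hl20 : 0 < l ^ 2 := by positivity
  rcases le_or_gt l (2 * Real.log M) with hc | hc
  · have e1 : l ^ (-α') = l ^ (2 - α') / l ^ 2 := by
      rw [← Real.rpow_natCast l 2, ← Real.rpow_sub hl0]
      congr 1
      push_cast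
      ring
    have e2 : l ^ (2 - α') ≤ 2 * Real.log M ^ (2 - α') := by
      calc l ^ (2 - α') ≤ (2 * Real.log M) ^ (2 - α') :=
            Real.rpow_le_rpow hl0.le hc (by linarith)
        _ = 2 ^ (2 - α') * Real.log M ^ (2 - α') := Real.mul_rpow (by norm_num) (by linarith)
        _ ≤ 2 * Real.log M ^ (2 - α') := by
            gcongr
            calc (2 : ℝ) ^ (2 - α') ≤ 2 ^ (1 : ℝ) :=
                  Real.rpow_le_rpow_of_exponent_le (by norm_num) (by linarith)
              _ = 2 := Real.rpow_one _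
    rw [le_div_iff₀ (by positivity)]
    have e3 : s * w * l ^ 2 ≤ C' * (2 * Real.log M ^ (2 - α')) := by
      calc s * w * l ^ 2 ≤ (C' * (l ^ (2 - α') / l ^ 2)) * l ^ 2 := by
            rw [← e1]; gcongr
        _ = C' * l ^ (2 - α') := by field_simp
        _ ≤ _ := by gcongr
    nlinarith
  · have e1 : M ≤ Real.exp (l / 2) := by
      rw [← Real.log_le_iff_le_exp (by linarith)]
      linarith
    have e2 : l ^ 2 ≤ 8 * Real.exp (l / 2) := by
      have := Real.quadratic_le_exp_of_nonneg (x := l / 2) (by linarith)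
      nlinarith
    rw [le_div_iff₀ (by positivity)]
    have e3 : w * (s * l ^ 2) ≤ 8 := by
      calc w * (s * l ^ 2) ≤ Real.exp (l / 2) * (s * (8 * Real.exp (l / 2))) := by
            have : 0 ≤ s * l ^ 2 := by positivity
            calc w * (s * l ^ 2) ≤ Real.exp (l / 2) * (s * l ^ 2) :=
                  mul_le_mul_of_nonneg_right (hwM.trans e1) this
              _ ≤ _ := by gcongr
        _ = 8 * (s * (Real.exp (l / 2) * Real.exp (l / 2))) := by ring
        _ = 8 := by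
            rw [← Real.exp_add, hse, ← Real.exp_add]
            have : -l + (l / 2 + l / 2) = 0 := by ring
            rw [this, Real.exp_zero, mul_one]
    calc w * (s * l ^ 2) ≤ 8 := e3
      _ ≤ (2 * C' + 8) * 1 := by linarith
      _ ≤ _ := by gcongr

theorem gr2Int {F : V → ℝ} (hF : ContDiff ℝ ∞ F) (hc : HasCompactSupport F) :
    Integrable (gr2 F) ∧ ∀ i : Fin 3, Integrable (fun x => pd i F x ^ 2) := by
  have h : ∀ i : Fin 3, Integrable (fun x => pd i F x ^ 2) := by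
    intro i
    have c1 : Continuous (pd i F) := (smpd hF i).continuous
    have c2 : HasCompactSupport (pd i F) := hc.fderiv_apply (𝕜 := ℝ) (Pi.single i 1)
    refine Continuous.integrable_of_hasCompactSupport (f := fun x => pd i F x ^ 2) (c1.pow 2) ?_
    have : (fun x => pd i F x ^ 2) = fun x => pd i F x * pd i F x := by funext x; ring
    rw [this]
    exact c2.mul_right
  refine ⟨?_, h⟩
  unfold gr2
  exact integrable_finsetSum _ fun i _ => h i

theorem hardyGD {F : V → ℝ} (hF : ContDiff ℝ ∞ F) (hc : HasCompactSupport F) :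
    ∫ x, (pd 0 F x ^ 2 + pd 1 F x ^ 2) ≤ GD F := by
  obtain ⟨h1, h2⟩ := gr2Int hF hc
  unfold GD
  apply integral_mono ((h2 0).add (h2 1)) h1
  intro x
  show pd 0 F x ^ 2 + pd 1 F x ^ 2 ≤ gr2 F x
  unfold gr2
  rw [Fin.sum_univ_three]
  nlinarith [sq_nonneg (pd 2 F x)]

/-- Cauchy's inequality with a weight. -/
theorem csW {f g w : V → ℝ} (hw : ∀ x, 0 ≤ w x) (hf : Integrable fun x => f x ^ 2 * w x)
    (hg : Integrable fun x => g x ^ 2 * w x) (hfg : Integrable fun x => |f x| * |g x| * w x) :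
    ∫ x, |f x| * |g x| * w x ≤ √((∫ x, f x ^ 2 * w x) * ∫ x, g x ^ 2 * w x) := by
  set A := ∫ x, f x ^ 2 * w x with hA
  set B := ∫ x, g x ^ 2 * w x with hB
  set I := ∫ x, |f x| * |g x| * w x with hI
  have hq : ∀ t : ℝ, 0 ≤ A * (t * t) + (-2 * I) * t + B := by
    intro t
    have e : A * (t * t) + (-2 * I) * t + B = ∫ x, (t * |f x| - |g x|) ^ 2 * w x := by
      have e1 : (fun x => (t * |f x| - |g x|) ^ 2 * w x) =
          fun x => (t * t) * (f x ^ 2 * w x) + (-2 * t) * (|f x| * |g x| * w x) +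
            g x ^ 2 * w x := by
        funext x
        have a1 := sq_abs (f x)
        have a2 := sq_abs (g x)
        rw [← a1, ← a2]
        ring
      have i1 : Integrable (fun x => (t * t) * (f x ^ 2 * w x) +
          (-2 * t) * (|f x| * |g x| * w x)) := (hf.const_mul _).add (hfg.const_mul _)
      rw [e1, integral_add i1 hg, integral_add (hf.const_mul _) (hfg.const_mul _),
        integral_const_mul, integral_const_mul]
      ring
    rw [e]
    exact integral_nonneg fun x => mul_nonneg (sq_nonneg _) (hw x)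
  have hd := discrim_le_zero hq
  unfold discrim at hd
  apply Real.le_sqrt_of_sq_le
  nlinarith

theorem sqAdd (a b : ℝ) : (a - b) ^ 2 ≤ 2 * a ^ 2 + 2 * b ^ 2 := by
  nlinarith [sq_nonneg (a + b)]

theorem vortGsq (v : V → V) (x : V) :
    vort v x 0 ^ 2 + vort v x 1 ^ 2 ≤ 2 * W221.NS.gsq v x := by
  have e0 : vort v x 0 = pd 1 (fun y => v y 2) x - pd 2 (fun y => v y 1) x := rfl
  have e1 : vort v x 1 = pd 2 (fun y => v y 0) x - pd 0 (fun y => v y 2) x := rfl
  rw [e0, e1]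
  unfold W221.NS.gsq
  simp only [Fin.sum_univ_three]
  have h0 := sqAdd (pd 1 (fun y => v y 2) x) (pd 2 (fun y => v y 1) x)
  have h1 := sqAdd (pd 2 (fun y => v y 0) x) (pd 0 (fun y => v y 2) x)
  nlinarith [sq_nonneg (pd 0 (fun y => v y 0) x), sq_nonneg (pd 1 (fun y => v y 0) x),
    sq_nonneg (pd 0 (fun y => v y 1) x), sq_nonneg (pd 1 (fun y => v y 1) x),
    sq_nonneg (pd 2 (fun y => v y 2) x)]

theorem gsqCont {v : V → V} (hv : ContDiff ℝ ∞ v) : Continuous (W221.NS.gsq v) := by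
  unfold W221.NS.gsq
  refine continuous_finsetSum _ fun i _ => continuous_finsetSum _ fun j _ => ?_
  have h : ContDiff ℝ ∞ (fun y => v y i) := (contDiff_pi.mp hv) i
  exact (smpd h j).continuous.pow 2

theorem coBdd (c r h : ℝ) (hh : 0 ≤ h) : Bornology.IsBounded (Co c r h) := by
  rw [isBounded_iff_forall_norm_le]
  refine ⟨|r| + |c| + h, fun x hx => ?_⟩
  obtain ⟨h1, h2⟩ := hx
  rw [pi_norm_le_iff_of_nonneg (by positivity)]
  unfold sg at h1
  intro i
  rw [Real.norm_eq_abs]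
  have k0 : |x 0| ≤ |r| := by
    apply sq_le_sq.mp
    nlinarith [sq_nonneg (x 1)]
  have k1 : |x 1| ≤ |r| := by
    apply sq_le_sq.mp
    nlinarith [sq_nonneg (x 0)]
  have k2 : |x 2| ≤ |c| + h := by
    calc |x 2| = |(x 2 - c) + c| := by ring_nf
      _ ≤ |x 2 - c| + |c| := abs_add_le _ _
      _ ≤ _ := by linarith
  have := abs_nonneg c
  have := abs_nonneg r
  fin_cases i
  · simp only [Fin.zero_eta]; linarith
  · simp only [Fin.mk_one]; linarith
  · simp only [Fin.reduceFinMk]; linarith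

/-- The pointwise bound. -/
theorem ptAll {s M P α' C' C₀ W J O φ G : ℝ} (hs : 0 < s) (hs2 : s ≤ Real.exp (-2)) (hM : 3 ≤ M)
    (h1 : 1 < α') (h2 : α' ≤ 2) (hC : 0 ≤ C') (hC₀ : 0 ≤ C₀) (hWM : |W| ≤ M) (hφ0 : 0 ≤ φ)
    (hφ1 : φ ≤ 1) (hG : 0 ≤ G) (hW0 : s * |W| ≤ C₀)
    (hlog : s ≤ P → s * |W| ≤ C' * |Real.log s| ^ (-α'))
    (hvo : s * (J ^ 2 + O ^ 2) ≤ 2 * G) (hPpos : 0 < P) :
    |φ ^ 2 * O * (W * J)| ≤
      (2 * C' + 8) * Real.log M ^ (2 - α') *
        (|φ * J| * |φ * O| * (s * Real.log s ^ 2)⁻¹) +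
      C₀ * M ^ (3 / 8 : ℝ) * G + C₀ * PM M P * (φ ^ 2 * J ^ 2 + φ ^ 2 * O ^ 2) := by
  have hM0 : (0 : ℝ) < M := by linarith
  have hM1 : (1 : ℝ) ≤ M := by linarith
  have hL1 : 1 ≤ Real.log M := by
    rw [Real.le_log_iff_exp_le (by linarith)]
    linarith [Real.exp_one_lt_d9]
  have hLp : 0 ≤ Real.log M ^ (2 - α') := Real.rpow_nonneg (by linarith) _
  have hP0 : 0 ≤ PM M P := by
    unfold PM
    split_ifs
    · positivity
    · exact le_refl _
  have hT1 : 0 ≤ (2 * C' + 8) * Real.log M ^ (2 - α') *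
      (|φ * J| * |φ * O| * (s * Real.log s ^ 2)⁻¹) := by positivity
  have hT2 : 0 ≤ C₀ * M ^ (3 / 8 : ℝ) * G := by positivity
  have hT3 : 0 ≤ C₀ * PM M P * (φ ^ 2 * J ^ 2 + φ ^ 2 * O ^ 2) := by positivity
  have hno : |φ ^ 2 * O * (W * J)| = |W| * (|φ * J| * |φ * O|) := by
    rw [← abs_mul, ← abs_mul]
    congr 1
    ring
  rw [hno]
  rcases le_or_gt s P with hc1 | hc1
  · -- inner region
    have hb := ptW hs hs2 hM h1 h2 hC hWM (hlog hc1)
    have : |W| * (|φ * J| * |φ * O|) ≤ (2 * C' + 8) * Real.log M ^ (2 - α') *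
        (|φ * J| * |φ * O| * (s * Real.log s ^ 2)⁻¹) := by
      calc |W| * (|φ * J| * |φ * O|) ≤
            ((2 * C' + 8) * Real.log M ^ (2 - α') / (s * Real.log s ^ 2)) *
              (|φ * J| * |φ * O|) :=
            mul_le_mul_of_nonneg_right hb (by positivity)
        _ = _ := by rw [div_eq_mul_inv]; ring
    exact (this.trans (le_add_of_nonneg_right hT2)).trans (le_add_of_nonneg_right hT3)
  have hW0 : |W| ≤ C₀ / s := by
    rw [le_div_iff₀ hs, mul_comm]
    exact hW0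
  rcases le_or_gt (M ^ (-(1 / 8) : ℝ)) s with hc2 | hc2
  · -- outer region
    have hMm : 0 < M ^ (-(1 / 8) : ℝ) := Real.rpow_pos_of_pos hM0 _
    have hi : 1 / s ≤ M ^ (1 / 8 : ℝ) := by
      rw [div_le_iff₀ hs]
      calc (1 : ℝ) = M ^ (1 / 8 : ℝ) * M ^ (-(1 / 8) : ℝ) := by
            rw [← Real.rpow_add hM0]; norm_num
        _ ≤ _ := by gcongr
    have hW1 : |W| ≤ C₀ * M ^ (1 / 8 : ℝ) := by
      calc |W| ≤ C₀ / s := hW0
        _ = C₀ * (1 / s) := by ring
        _ ≤ _ := by gcongr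
    have hvo2 : J ^ 2 + O ^ 2 ≤ M ^ (1 / 8 : ℝ) * (2 * G) := by
      calc J ^ 2 + O ^ 2 = (1 / s) * (s * (J ^ 2 + O ^ 2)) := by field_simp
        _ ≤ M ^ (1 / 8 : ℝ) * (2 * G) := by gcongr
    have hφ12 : φ ^ 2 ≤ 1 := by nlinarith
    have hprod : |φ * J| * |φ * O| ≤ M ^ (1 / 8 : ℝ) * G := by
      calc |φ * J| * |φ * O| = φ ^ 2 * (|J| * |O|) := by
            rw [abs_mul, abs_mul, abs_of_nonneg hφ0]; ring
        _ ≤ 1 * (|J| * |O|) := by gcongr
        _ ≤ (J ^ 2 + O ^ 2) / 2 := by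
            nlinarith [sq_nonneg (|J| - |O|), sq_abs J, sq_abs O]
        _ ≤ _ := by linarith
    have hpow : M ^ (1 / 8 : ℝ) * M ^ (1 / 8 : ℝ) ≤ M ^ (3 / 8 : ℝ) := by
      rw [← Real.rpow_add hM0]
      exact Real.rpow_le_rpow_of_exponent_le hM1 (by norm_num)
    have hm8 : 0 ≤ M ^ (1 / 8 : ℝ) := Real.rpow_nonneg hM0.le _
    have hfin : |W| * (|φ * J| * |φ * O|) ≤ C₀ * M ^ (3 / 8 : ℝ) * G := by
      calc |W| * (|φ * J| * |φ * O|) ≤ (C₀ * M ^ (1 / 8 : ℝ)) * (M ^ (1 / 8 : ℝ) * G) := by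
            apply mul_le_mul hW1 hprod (by positivity) (by positivity)
        _ = C₀ * (M ^ (1 / 8 : ℝ) * M ^ (1 / 8 : ℝ)) * G := by ring
        _ ≤ _ := by gcongr
    exact (hfin.trans (le_add_of_nonneg_left hT1)).trans (le_add_of_nonneg_right hT3)
  · -- the middle region
    have hPMe : PM M P = P⁻¹ := by
      unfold PM
      rw [if_pos (hc1.trans hc2)]
    · have hW1 : |W| ≤ C₀ * PM M P := by
        rw [hPMe]
        calc |W| ≤ C₀ / s := hW0
          _ ≤ C₀ / P := by gcongr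
          _ = _ := by rw [div_eq_mul_inv]
      have hprod : |φ * J| * |φ * O| ≤ φ ^ 2 * J ^ 2 + φ ^ 2 * O ^ 2 := by
        have a1 := sq_abs (φ * J)
        have a2 := sq_abs (φ * O)
        nlinarith [sq_nonneg (|φ * J| - |φ * O|), sq_nonneg (φ * J), sq_nonneg (φ * O)]
      have hfin : |W| * (|φ * J| * |φ * O|) ≤
          C₀ * PM M P * (φ ^ 2 * J ^ 2 + φ ^ 2 * O ^ 2) :=
        mul_le_mul hW1 hprod (by positivity) (by positivity)
      exact hfin.trans (le_add_of_nonneg_left (add_nonneg hT1 hT2))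

/-- AXP-2. -/
theorem t_T2P : StmAlg → StmHar → StmT2P := by
  intro hAlg hHar K c r h r1 h1 C' C₀ α' hK hr1 hr1r hr2 hh1 hh1h hh hC' hC₀ hα1 hα2
  refine ⟨4 * ((2 * C' + 8) + C₀ + C₀), by positivity, ?_⟩
  intro M P v φ hM hP hv hax hcut hC₀b hlog hWM
  obtain ⟨⟨sU, sW, sJ, sO⟩, -, -, hid⟩ := hAlg v hv hax
  have hM0 : (0 : ℝ) < M := by linarith
  have hM1 : (1 : ℝ) ≤ M := by linarith
  have hL1 : 1 ≤ Real.log M := by
    rw [Real.le_log_iff_exp_le (by linarith)]
    linarith [Real.exp_one_lt_d9]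
  have hLp : 0 ≤ Real.log M ^ (2 - α') := Real.rpow_nonneg (by linarith) _
  set L := Real.log M ^ (2 - α') with hLdef
  -- the two functions
  have sf : ContDiff ℝ ∞ (fun x => φ x * JJ v x) := hcut.sm.mul sJ
  have sg' : ContDiff ℝ ∞ (fun x => φ x * OO v x) := hcut.sm.mul sO
  have cf : HasCompactSupport (fun x => φ x * JJ v x) := hcut.cs.mul_right
  have cg : HasCompactSupport (fun x => φ x * OO v x) := hcut.cs.mul_right
  have hco : ∀ x, φ x ≠ 0 → x ∈ Co c r h := fun x hx => hcut.supp (subset_tsupport _ hx)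
  have hsgle : ∀ x ∈ Co c r h, sg x ≤ Real.exp (-2) := fun x hx => hx.1.le.trans hr2
  have hf := hHar (fun x => φ x * JJ v x) (sf.of_le (by norm_cast)) cf
    (fun x hx => hsgle x (hco x (left_ne_zero_of_mul hx)))
  have hg := hHar (fun x => φ x * OO v x) (sg'.of_le (by norm_cast)) cg
    (fun x hx => hsgle x (hco x (left_ne_zero_of_mul hx)))
  have hfG := hf.2.trans (hardyGD sf cf)
  have hgG := hg.2.trans (hardyGD sg' cg)
  set w : V → ℝ := fun x => (sg x * Real.log (sg x) ^ 2)⁻¹ with hw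
  have hsg0 : ∀ x : V, 0 ≤ sg x := fun x => by unfold sg; positivity
  have hw0 : ∀ x, 0 ≤ w x := fun x => inv_nonneg.mpr (mul_nonneg (hsg0 x) (sq_nonneg _))
  have hfw : Integrable fun x => (φ x * JJ v x) ^ 2 * w x := hf.1
  have hgw : Integrable fun x => (φ x * OO v x) ^ 2 * w x := hg.1
  have hwm : Measurable w := by
    have m1 : Measurable (sg : V → ℝ) := smSgT.continuous.measurable
    exact (m1.mul ((Real.measurable_log.comp m1).pow_const 2)).inv
  have hfgw : Integrable fun x => |φ x * JJ v x| * |φ x * OO v x| * w x := by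
    apply (hfw.add hgw).mono
    · exact (((sf.continuous.abs.measurable).mul (sg'.continuous.abs.measurable)).mul
        hwm).aestronglyMeasurable
    · refine Filter.Eventually.of_forall fun x => ?_
      rw [Real.norm_eq_abs, Real.norm_eq_abs]
      have k0 := hw0 x
      have a1 := sq_abs (φ x * JJ v x)
      have a2 := sq_abs (φ x * OO v x)
      have a3 := abs_nonneg (φ x * JJ v x)
      have a4 := abs_nonneg (φ x * OO v x)
      have b1 : 0 ≤ |φ x * JJ v x| * |φ x * OO v x| * w x := mul_nonneg (mul_nonneg a3 a4) k0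
      have b2 : 0 ≤ (φ x * JJ v x) ^ 2 * w x + (φ x * OO v x) ^ 2 * w x :=
        add_nonneg (mul_nonneg (sq_nonneg _) k0) (mul_nonneg (sq_nonneg _) k0)
      rw [abs_of_nonneg b1]
      show _ ≤ |(φ x * JJ v x) ^ 2 * w x + (φ x * OO v x) ^ 2 * w x|
      rw [abs_of_nonneg b2, ← add_mul]
      refine mul_le_mul_of_nonneg_right ?_ k0
      rw [← a1, ← a2]
      nlinarith [sq_nonneg (|φ x * JJ v x| - |φ x * OO v x|)]
  have hcs := csW hw0 hfw hgw hfgw
  -- integrability of the squares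
  have iJ : Integrable fun x => φ x ^ 2 * JJ v x ^ 2 := by
    refine Continuous.integrable_of_hasCompactSupport
      ((hcut.sm.continuous.pow 2).mul (sJ.continuous.pow 2)) ?_
    have e : (fun x => φ x ^ 2 * JJ v x ^ 2) = fun x => φ x * (φ x * JJ v x ^ 2) := by
      funext x; ring
    rw [e]
    exact hcut.cs.mul_right
  have iO : Integrable fun x => φ x ^ 2 * OO v x ^ 2 := by
    refine Continuous.integrable_of_hasCompactSupport
      ((hcut.sm.continuous.pow 2).mul (sO.continuous.pow 2)) ?_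
    have e : (fun x => φ x ^ 2 * OO v x ^ 2) = fun x => φ x * (φ x * OO v x ^ 2) := by
      funext x; ring
    rw [e]
    exact hcut.cs.mul_right
  have hCoM : MeasurableSet (Co c r h) := by
    have m1 : MeasurableSet {x : V | sg x < r ^ 2} :=
      measurableSet_lt smSgT.continuous.measurable measurable_const
    have m2 : MeasurableSet {x : V | |x 2 - c| < h} := by
      have : Continuous fun x : V => |x 2 - c| := by fun_prop
      exact measurableSet_lt this.measurable measurable_const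
    exact m1.inter m2
  have iG : IntegrableOn (W221.NS.gsq v) (Co c r h) := by
    have hb := (coBdd c r h (by linarith)).isCompact_closure
    exact ((gsqCont hv).continuousOn.integrableOn_compact hb).mono_set subset_closure
  have iG' : Integrable ((Co c r h).indicator (W221.NS.gsq v)) := iG.integrable_indicator hCoM
  have hPM : 0 ≤ PM M P := by
    unfold PM
    split_ifs
    · positivity
    · exact le_refl _
  have hg0 : ∀ x, 0 ≤ W221.NS.gsq v x := fun x => by
    unfold W221.NS.gsq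
    positivity
  -- the pointwise bound
  have hpt : ∀ᵐ x : V, ‖φ x ^ 2 * OO v x * (WW v x * JJ v x)‖ ≤
      (2 * C' + 8) * L * (|φ x * JJ v x| * |φ x * OO v x| * w x) +
      C₀ * M ^ (3 / 8 : ℝ) * ((Co c r h).indicator (W221.NS.gsq v) x) +
      C₀ * PM M P * (φ x ^ 2 * JJ v x ^ 2 + φ x ^ 2 * OO v x ^ 2) := by
    have hnull : ∀ᵐ x : V, sg x ≠ 0 := by
      rw [ae_iff]
      simp only [not_not]
      exact axNull
    filter_upwards [hnull] with x hx
    have hsx : 0 < sg x := lt_of_le_of_ne (hsg0 x) (Ne.symm hx)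
    by_cases hφ : φ x = 0
    · rw [hφ]
      have : 0 ≤ C₀ * M ^ (3 / 8 : ℝ) * ((Co c r h).indicator (W221.NS.gsq v) x) :=
        mul_nonneg (mul_nonneg hC₀ (Real.rpow_nonneg hM0.le _))
          (indicator_nonneg (fun y _ => hg0 y) x)
      simpa using this
    have hxC := hco x hφ
    rw [indicator_of_mem hxC, Real.norm_eq_abs]
    have q0 : vort v x 0 = x 0 * JJ v x - x 1 * OO v x := (hid x).2.2.1
    have q1 : vort v x 1 = x 1 * JJ v x + x 0 * OO v x := (hid x).2.2.2.1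
    have hcirc : circ v x = sg x * WW v x := (hid x).2.2.2.2.2.2.2.2.1
    have hcabs : |circ v x| = sg x * |WW v x| := by
      rw [hcirc, abs_mul, abs_of_pos hsx]
    apply ptAll hsx (hsgle x hxC) hM hα1 hα2 hC' hC₀ (hWM x hxC) (hcut.nn x) (hcut.le x) (hg0 x)
    · rw [← hcabs]; exact hC₀b x hxC
    · rw [← hcabs]; exact fun h => hlog x hxC hx h
    · have q2 : vort v x 0 ^ 2 + vort v x 1 ^ 2 = sg x * (JJ v x ^ 2 + OO v x ^ 2) := by
        rw [q0, q1]
        unfold sg
        ring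
      rw [← q2]
      exact vortGsq v x
    · exact hP
  -- integrate
  have iT1 := hfgw.const_mul ((2 * C' + 8) * L)
  have iT2 := iG'.const_mul (C₀ * M ^ (3 / 8 : ℝ))
  have iT3 : Integrable fun x => C₀ * PM M P * (φ x ^ 2 * JJ v x ^ 2 + φ x ^ 2 * OO v x ^ 2) :=
    (iJ.add iO).const_mul _
  have iT12 : Integrable fun x => (2 * C' + 8) * L * (|φ x * JJ v x| * |φ x * OO v x| * w x) +
      C₀ * M ^ (3 / 8 : ℝ) * ((Co c r h).indicator (W221.NS.gsq v) x) := iT1.add iT2
  have hmain := norm_integral_le_of_norm_le (iT12.add iT3) hpt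
  have hval : ∫ x, (((2 * C' + 8) * L * (|φ x * JJ v x| * |φ x * OO v x| * w x) +
      C₀ * M ^ (3 / 8 : ℝ) * ((Co c r h).indicator (W221.NS.gsq v) x)) +
      C₀ * PM M P * (φ x ^ 2 * JJ v x ^ 2 + φ x ^ 2 * OO v x ^ 2)) =
      (2 * C' + 8) * L * (∫ x, |φ x * JJ v x| * |φ x * OO v x| * w x) +
      C₀ * M ^ (3 / 8 : ℝ) * (∫ x in Co c r h, W221.NS.gsq v x) +
      C₀ * PM M P * ((∫ x, φ x ^ 2 * JJ v x ^ 2) + ∫ x, φ x ^ 2 * OO v x ^ 2) := by
    rw [integral_add iT12 iT3, integral_add iT1 iT2, integral_const_mul, integral_const_mul,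
      integral_const_mul, integral_add iJ iO, integral_indicator hCoM]
  have hmain' : |∫ x, φ x ^ 2 * OO v x * (WW v x * JJ v x)| ≤
      (2 * C' + 8) * L * (∫ x, |φ x * JJ v x| * |φ x * OO v x| * w x) +
      C₀ * M ^ (3 / 8 : ℝ) * (∫ x in Co c r h, W221.NS.gsq v x) +
      C₀ * PM M P * ((∫ x, φ x ^ 2 * JJ v x ^ 2) + ∫ x, φ x ^ 2 * OO v x ^ 2) := by
    rw [← hval]
    exact hmain
  have hcs2 : ∫ x, |φ x * JJ v x| * |φ x * OO v x| * w x ≤
      √(GD (fun x => φ x * JJ v x) * GD (fun x => φ x * OO v x)) := by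
    refine hcs.trans (Real.sqrt_le_sqrt ?_)
    apply mul_le_mul hfG hgG
    · exact integral_nonneg fun x => mul_nonneg (sq_nonneg _) (hw0 x)
    · exact le_trans (integral_nonneg fun x => mul_nonneg (sq_nonneg _) (hw0 x)) hfG
  have n1 : 0 ≤ √(GD (fun x => φ x * JJ v x) * GD (fun x => φ x * OO v x)) := Real.sqrt_nonneg _
  have n2 : 0 ≤ ∫ x in Co c r h, W221.NS.gsq v x := integral_nonneg fun x => hg0 x
  have n3 : 0 ≤ (∫ x, φ x ^ 2 * JJ v x ^ 2) + ∫ x, φ x ^ 2 * OO v x ^ 2 :=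
    add_nonneg (integral_nonneg fun x => by positivity) (integral_nonneg fun x => by positivity)
  have n4 : 0 ≤ M ^ (3 / 8 : ℝ) := Real.rpow_nonneg hM0.le _
  have b1 : (2 * C' + 8) * L * (∫ x, |φ x * JJ v x| * |φ x * OO v x| * w x) ≤
      ((2 * C' + 8) + C₀ + C₀) *
        (L * √(GD (fun x => φ x * JJ v x) * GD (fun x => φ x * OO v x))) := by
    calc _ ≤ (2 * C' + 8) * L * √(GD (fun x => φ x * JJ v x) * GD (fun x => φ x * OO v x)) := by
          gcongr
      _ = (2 * C' + 8) * (L * √(GD (fun x => φ x * JJ v x) * GD (fun x => φ x * OO v x))) := by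
          ring
      _ ≤ _ := mul_le_mul_of_nonneg_right (by linarith) (mul_nonneg hLp n1)
  have b2 : C₀ * M ^ (3 / 8 : ℝ) * (∫ x in Co c r h, W221.NS.gsq v x) ≤
      ((2 * C' + 8) + C₀ + C₀) * (M ^ (3 / 8 : ℝ) * ∫ x in Co c r h, W221.NS.gsq v x) := by
    rw [mul_assoc]
    exact mul_le_mul_of_nonneg_right (by linarith) (mul_nonneg n4 n2)
  have b3 : C₀ * PM M P * ((∫ x, φ x ^ 2 * JJ v x ^ 2) + ∫ x, φ x ^ 2 * OO v x ^ 2) ≤
      ((2 * C' + 8) + C₀ + C₀) *
        (PM M P * ((∫ x, φ x ^ 2 * JJ v x ^ 2) + ∫ x, φ x ^ 2 * OO v x ^ 2)) := by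
    rw [mul_assoc]
    exact mul_le_mul_of_nonneg_right (by linarith) (mul_nonneg hPM n3)
  calc 4 * |∫ x, φ x ^ 2 * OO v x * (WW v x * JJ v x)| ≤ _ :=
        mul_le_mul_of_nonneg_left (hmain'.trans (add_le_add (add_le_add b1 b2) b3))
          (by norm_num)
    _ = _ := by ring

/-- AXI-11 follows from AXP-2 (`P = 1`, `C₀ = C'`). -/
theorem t_T2_of_T2P : StmT2P → StmT2 := by
  intro hP K c r h r1 h1 C' α' hK hr1 hr1r hr2 hh1 hh1h hh hC' hα1 hα2
  obtain ⟨C, hC, hm⟩ := hP K c r h r1 h1 C' C' α' hK hr1 hr1r hr2 hh1 hh1h hh hC' hC' hα1 hα2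
  refine ⟨C, hC, ?_⟩
  intro M v φ hM hv hax hcut hlog hWM
  have hM1 : (1 : ℝ) ≤ M := by linarith
  have hPM : PM M 1 = 0 := by
    unfold PM
    rw [if_neg]
    rw [not_lt]
    exact Real.rpow_le_one_of_one_le_of_nonpos hM1 (by norm_num)
  have hb : ∀ x ∈ Co c r h, |circ v x| ≤ C' := by
    intro x hx
    by_cases h0 : sg x = 0
    · have e0 : x 0 = 0 := by
        unfold sg at h0
        nlinarith [sq_nonneg (x 0), sq_nonneg (x 1)]
      have e1 : x 1 = 0 := by
        unfold sg at h0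
        nlinarith [sq_nonneg (x 0), sq_nonneg (x 1)]
      have : circ v x = 0 := by
        unfold circ
        rw [e0, e1]
        ring
      rw [this, abs_zero]
      exact hC'
    · have hs : 0 < sg x := lt_of_le_of_ne (by unfold sg; positivity) (Ne.symm h0)
      have hl2 : Real.log (sg x) ≤ -2 := by
        rw [← Real.log_exp (-2)]
        exact Real.log_le_log hs (hx.1.le.trans hr2)
      have h1 : (1 : ℝ) ≤ |Real.log (sg x)| := by
        rw [abs_of_nonpos (by linarith)]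
        linarith
      calc |circ v x| ≤ C' * |Real.log (sg x)| ^ (-α') := hlog x hx h0
        _ ≤ C' * 1 := by
            gcongr
            exact Real.rpow_le_one_of_one_le_of_nonpos h1 (by linarith)
        _ = C' := mul_one _
  have := hm M 1 v φ hM one_pos hv hax hcut hb (fun x hx h0 _ => hlog x hx h0) hWM
  rw [hPM] at this
  simpa using this

end Pool.Agent.Q153.AXI
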